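import Pool.Agent.SA32.Plus
import Pool.Agent.SA97.Cls

set_option autoImplicit false

/-! The gadget `G` of helper32: rooted-good for legs of length at most `4`, without the tree `T`.

`gad k q` is the wedge at one vertex `x` of `q` copies of the gadget and of a clique `K_(k-1)`.
 -/

namespace Pool.Agent.SA58

open SimpleGraph Pool.Agent.SA33 Pool.Agent.SA97 Pool.Agent.SA32

/-! ### Classes -/

theorem mid_cases {n : ℕ} {a b c : ZMod n} (hab : Far a b) (hac : ¬ Far a c) (hbc : ¬ Far b c) :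
    (c = a + 1 ∧ b = a + 2) ∨ (c + 1 = a ∧ b + 2 = a) := by
  unfold Far at hac hbc
  have e2 : (2 : ZMod n) = 1 + 1 := by norm_num
  have h1 : a = c ∨ a = c + 1 ∨ c = a + 1 := by tauto
  have h2 : b = c ∨ b = c + 1 ∨ c = b + 1 := by tauto
  obtain ⟨n1, n2, n3⟩ := hab
  rcases h1 with h1 | h1 | h1
  · subst h1
    rcases h2 with h2 | h2 | h2
    · exact absurd h2.symm n1
    · exact absurd h2 n3
    · exact absurd h2 n2
  · subst h1
    rcases h2 with h2 | h2 | h2
    · subst h2; exact absurd rfl n2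
    · exact absurd h2.symm n1
    · subst h2
      right
      refine ⟨rfl, ?_⟩
      rw [e2]; ring
  · subst h1
    rcases h2 with h2 | h2 | h2
    · exact absurd h2 n3
    · left
      refine ⟨rfl, ?_⟩
      rw [h2, e2]; ring
    · exact absurd (add_right_cancel h2) n1

/-- Only one class is near to two far classes. -/
theorem near_unique {n : ℕ} (hn : 5 ≤ n) {a b c d : ZMod n} (hab : Far a b) (hac : ¬ Far a c)
    (hbc : ¬ Far b c) (had : ¬ Far a d) (hbd : ¬ Far b d) : c = d := by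
  have h4 : ((4 : ℕ) : ZMod n) ≠ 0 := natCast_ne_zero' (by omega) (by omega)
  have e4 : ((4 : ℕ) : ZMod n) = 2 + 2 := by push_cast; norm_num
  rcases mid_cases hab hac hbc with ⟨h1, h2⟩ | ⟨h1, h2⟩ <;>
    rcases mid_cases hab had hbd with ⟨h3, h5⟩ | ⟨h3, h5⟩
  · rw [h1, h3]
  · exfalso
    apply h4
    rw [e4]
    rw [h2] at h5
    have := congrArg (fun y => y - a) h5
    simp only [sub_self] at this
    rw [← this]; ring
  · exfalso
    apply h4
    rw [e4]
    rw [h5] at h2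
    have := congrArg (fun y => y - a) h2
    simp only [sub_self] at this
    rw [← this]; ring
  · exact add_right_cancel (h1.trans h3.symm)

/-! ### The gadget -/

/-- Vertices of the wedge: the root, `D`-vertices, `V`-vertices (level `1` is `false`, level `2`
is `true`) and the vertices of the leaf clique. -/
inductive W (k q : ℕ) : Type
  | x : W k q
  | d (t : Fin q) (m : ZMod (2 * k - 1)) (h : Far m 1) : W k q
  | v (t : Fin q) (i : Bool) (c : ZMod (2 * k - 1)) : W k q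
  | l (j : Fin (k - 2)) : W k q

variable {k q : ℕ}

/-- Adjacency in the wedge. -/
def wadj : W k q → W k q → Prop
  | .x, .d _ _ _ => True
  | .d _ _ _, .x => True
  | .x, .l _ => True
  | .l _, .x => True
  | .l i, .l j => i ≠ j
  | .d t m _, .d t' m' _ => t = t' ∧ Far m m'
  | .d t m _, .v t' i c => t = t' ∧ i = false ∧ Far m c
  | .v t i c, .d t' m _ => t = t' ∧ i = false ∧ Far m c
  | .v t _ c, .v t' _ c' => t = t' ∧ Far c c'
  | _, _ => False

/-- The wedge of `q` gadgets and a clique. -/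
def gad (k q : ℕ) : SimpleGraph (W k q) where
  Adj := wadj
  symm := ⟨by
    rintro (_ | ⟨t, m, hm⟩ | ⟨t, i, c⟩ | j) (_ | ⟨t', m', hm'⟩ | ⟨t', i', c'⟩ | j') h <;>
      simp only [wadj] at h ⊢
    · exact ⟨h.1.symm, h.2.symm⟩
    · exact ⟨h.1.symm, h.2⟩
    · exact ⟨h.1.symm, h.2⟩
    · exact ⟨h.1.symm, h.2.symm⟩
    · exact h.symm⟩
  loopless := ⟨by
    rintro (_ | ⟨t, m, hm⟩ | ⟨t, i, c⟩ | j) h <;> simp only [wadj] at h
    · exact h.2.1 rfl
    · exact h.2.1 rfl
    · exact h rfl⟩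

/-- The class of a vertex. -/
def cls : W k q → ZMod (2 * k - 1)
  | .x => 1
  | .d _ m _ => m
  | .v _ _ c => c
  | .l j => ((2 * (j : ℕ) + 3 : ℕ) : ZMod (2 * k - 1))

theorem adj_far {u w : W k q} (h : (gad k q).Adj u w) : Far (cls u) (cls w) := by
  have hl : ∀ j : Fin (k - 2), Far (1 : ZMod (2 * k - 1)) ((2 * (j : ℕ) + 3 : ℕ)) := by
    intro j
    have h1 := far_add (1 : ZMod (2 * k - 1)) (d := 2 * (j : ℕ) + 2) (by omega)
      (by have := j.2; omega)
    have h2 : (1 : ZMod (2 * k - 1)) + ((2 * (j : ℕ) + 2 : ℕ) : ZMod (2 * k - 1)) =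
        ((2 * (j : ℕ) + 3 : ℕ) : ZMod (2 * k - 1)) := by
      push_cast; ring
    rwa [h2] at h1
  have hll : ∀ i j : Fin (k - 2), i < j →
      Far ((2 * (i : ℕ) + 3 : ℕ) : ZMod (2 * k - 1)) ((2 * (j : ℕ) + 3 : ℕ)) := by
    intro i j hij
    have hij' : (i : ℕ) < j := hij
    have h1 := far_add ((2 * (i : ℕ) + 3 : ℕ) : ZMod (2 * k - 1))
      (d := 2 * ((j : ℕ) - i)) (by omega) (by have := j.2; omega)
    rw [← Nat.cast_add] at h1
    have h2 : 2 * (i : ℕ) + 3 + 2 * ((j : ℕ) - i) = 2 * (j : ℕ) + 3 := by omega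
    rwa [h2] at h1
  rcases u with _ | ⟨t, m, hm⟩ | ⟨t, i, c⟩ | j <;>
    rcases w with _ | ⟨t', m', hm'⟩ | ⟨t', i', c'⟩ | j' <;>
    simp only [gad, wadj] at h <;> simp only [cls]
  · exact hm'.symm
  · exact hl _
  · exact hm
  · exact h.2
  · exact h.2.2
  · exact h.2.2.symm
  · exact h.2
  · exact (hl _).symm
  · rcases lt_or_gt_of_ne h with h' | h'
    · exact hll _ _ h'
    · exact (hll _ _ h').symm

theorem gad_cliqueFree (hk : 3 ≤ k) : IsEmpty ((⊤ : SimpleGraph (Fin k)) ↪g gad k q) := by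
  classical
  have : NeZero (2 * k - 1) := ⟨by omega⟩
  refine ⟨fun f => ?_⟩
  have hf : ∀ i j : Fin k, i ≠ j → Far (cls (f i)) (cls (f j)) := by
    intro i j hij
    exact adj_far (f.map_adj_iff.2 (by simpa using hij))
  have hinj : Function.Injective (fun i => cls (f i)) := by
    intro i j hij
    by_contra hne
    exact (hf i j hne).1 hij
  have h1 := far_card (Finset.univ.image (fun i => cls (f i))) (by
    intro a ha b hb hab
    obtain ⟨i, -, rfl⟩ := Finset.mem_image.1 ha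
    obtain ⟨j, -, rfl⟩ := Finset.mem_image.1 hb
    exact hf i j (fun h => hab (by rw [h]))) (by omega)
  rw [Finset.card_image_of_injective _ hinj, Finset.card_univ, Fintype.card_fin] at h1
  omega

/-! ### The two parts without an induced `2K_2` -/

/-- The part `D ∪ V¹` of the copy `t`. -/
def P1 (t : Fin q) : W k q → Prop
  | .d t' _ _ => t' = t
  | .v t' i _ => t' = t ∧ i = false
  | _ => False

/-- The part `V¹ ∪ V²` of the copy `t`. -/
def P2 (t : Fin q) : W k q → Prop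
  | .v t' _ _ => t' = t
  | _ => False

/-- The copy `t` without the root. -/
def Pc (t : Fin q) : W k q → Prop
  | .d t' _ _ => t' = t
  | .v t' _ _ => t' = t
  | _ => False

theorem P1_adj (t : Fin q) (u w : W k q) (hu : P1 t u) (hw : P1 t w) :
    (gad k q).Adj u w ↔ Far (cls u) (cls w) := by
  rcases u with _ | ⟨t1, m, hm⟩ | ⟨t1, i, c⟩ | j <;>
    rcases w with _ | ⟨t2, m', hm'⟩ | ⟨t2, i', c'⟩ | j' <;>
    simp only [P1] at hu hw <;> simp only [gad, wadj, cls]
  · subst hu; subst hw; simp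
  · obtain ⟨h1, h2⟩ := hw; subst hu; subst h1; subst h2; simp
  · obtain ⟨h1, h2⟩ := hu; subst hw; subst h1; subst h2
    simp only [true_and]
    exact ⟨fun h => h.symm, fun h => h.symm⟩
  · obtain ⟨h1, h2⟩ := hu; obtain ⟨h3, h4⟩ := hw; subst h1; subst h2; subst h3; simp

theorem P2_adj (t : Fin q) (u w : W k q) (hu : P2 t u) (hw : P2 t w) :
    (gad k q).Adj u w ↔ Far (cls u) (cls w) := by
  rcases u with _ | ⟨t1, m, hm⟩ | ⟨t1, i, c⟩ | j <;>
    rcases w with _ | ⟨t2, m', hm'⟩ | ⟨t2, i', c'⟩ | j' <;>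
    simp only [P2] at hu hw <;> simp only [gad, wadj, cls]
  subst hu; subst hw; simp

theorem no2K2 (hk : 3 ≤ k) {P : W k q → Prop}
    (hP : ∀ u w, P u → P w → ((gad k q).Adj u w ↔ Far (cls u) (cls w)))
    {u u' w w' : W k q} (hu : P u) (hu' : P u') (hw : P w) (hw' : P w')
    (h1 : (gad k q).Adj u u') (h2 : (gad k q).Adj w w')
    (h3 : ¬ (gad k q).Adj u w) (h4 : ¬ (gad k q).Adj u w')
    (h5 : ¬ (gad k q).Adj u' w) (h6 : ¬ (gad k q).Adj u' w') : False := by
  rw [hP _ _ hu hu'] at h1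
  rw [hP _ _ hw hw'] at h2
  rw [hP _ _ hu hw] at h3
  rw [hP _ _ hu hw'] at h4
  rw [hP _ _ hu' hw] at h5
  rw [hP _ _ hu' hw'] at h6
  exact h2.1 (near_unique (by omega) h1 h3 h5 h4 h6)

theorem edge_part {t : Fin q} {u w : W k q} (hu : Pc t u) (hw : Pc t w)
    (h : (gad k q).Adj u w) : (P1 t u ∧ P1 t w) ∨ (P2 t u ∧ P2 t w) := by
  rcases u with _ | ⟨t1, m, hm⟩ | ⟨t1, i, c⟩ | j <;>
    rcases w with _ | ⟨t2, m', hm'⟩ | ⟨t2, i', c'⟩ | j' <;>
    simp only [Pc] at hu hw <;> simp only [gad, wadj] at h <;> simp only [P1, P2]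
  · exact Or.inl ⟨hu, hw⟩
  · exact Or.inl ⟨hu, hw, h.2.1⟩
  · exact Or.inl ⟨⟨hu, h.2.1⟩, hw⟩
  · exact Or.inr ⟨hu, hw⟩

theorem Pc_adj {t : Fin q} {u w : W k q} (hu : Pc t u) (h : (gad k q).Adj u w) (hw : w ≠ .x) :
    Pc t w := by
  rcases u with _ | ⟨t1, m, hm⟩ | ⟨t1, i, c⟩ | j <;>
    rcases w with _ | ⟨t2, m', hm'⟩ | ⟨t2, i', c'⟩ | j' <;>
    simp only [Pc] at hu <;> simp only [gad, wadj] at h <;> simp only [Pc]
  · exact hw rfl
  · exact h.1.symm.trans hu
  · exact h.1.symm.trans hu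
  · exact h.1.symm.trans hu
  · exact h.1.symm.trans hu

theorem P2_Pc {t : Fin q} {u : W k q} (hu : P2 t u) : Pc t u := by
  rcases u with _ | ⟨t1, m, hm⟩ | ⟨t1, i, c⟩ | j <;> simp only [P2] at hu <;> simpa only [Pc]

theorem P1_Pc {t : Fin q} {u : W k q} (hu : P1 t u) : Pc t u := by
  rcases u with _ | ⟨t1, m, hm⟩ | ⟨t1, i, c⟩ | j <;> simp only [P1] at hu <;> simp only [Pc]
  · exact hu
  · exact hu.1

theorem Pc_unique {t t' : Fin q} {u : W k q} (hu : Pc t u) (hu' : Pc t' u) : t = t' := by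
  rcases u with _ | ⟨t1, m, hm⟩ | ⟨t1, i, c⟩ | j <;> simp only [Pc] at hu hu'
  · exact hu.symm.trans hu'
  · exact hu.symm.trans hu'

/-- A vertex different from the root and not adjacent to it. -/
theorem nonadj_x {u : W k q} (h : ¬ (gad k q).Adj .x u) (hu : u ≠ .x) : ∃ t, P2 t u := by
  rcases u with _ | ⟨t1, m, hm⟩ | ⟨t1, i, c⟩ | j
  · exact absurd rfl hu
  · exact absurd trivial h
  · exact ⟨t1, rfl⟩
  · exact absurd trivial h

/-- An edge whose first vertex is adjacent to the root and whose second one is not. -/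
theorem root_edge {u w : W k q} (h : (gad k q).Adj .x u) (huw : (gad k q).Adj u w)
    (hw : ¬ (gad k q).Adj .x w) (hwx : w ≠ .x) : ∃ t, P1 t u ∧ P1 t w := by
  rcases u with _ | ⟨t1, m, hm⟩ | ⟨t1, i, c⟩ | j <;>
    rcases w with _ | ⟨t2, m', hm'⟩ | ⟨t2, i', c'⟩ | j' <;>
    simp only [gad, wadj] at h huw hw <;> simp only [P1]
  · exact absurd rfl hwx
  · exact absurd trivial hw
  · exact ⟨t1, rfl, huw.1.symm, huw.2.1⟩
  · exact absurd rfl hwx
  · exact absurd trivial hw

/-- Vertices outside the copies. -/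
theorem not_copy {u : W k q} (hu : u ≠ .x) (h : ¬ ∃ t, Pc t u) : ∃ j, u = .l j := by
  rcases u with _ | ⟨t1, m, hm⟩ | ⟨t1, i, c⟩ | j
  · exact absurd rfl hu
  · exact absurd ⟨t1, rfl⟩ h
  · exact absurd ⟨t1, rfl⟩ h
  · exact ⟨j, rfl⟩

/-! ### Walks avoiding a vertex of a forest -/

section Walks

variable {V : Type*} {T : SimpleGraph V}

/-- `u` and `w` are joined by a walk avoiding `x`. -/
def R (T : SimpleGraph V) (x u w : V) : Prop := ∃ p : T.Walk u w, x ∉ p.support

theorem R.refl {x u : V} (h : u ≠ x) : R T x u u := ⟨Walk.nil, by simpa using h.symm⟩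

theorem R.symm {x u w : V} (h : R T x u w) : R T x w u := by
  obtain ⟨p, hp⟩ := h
  exact ⟨p.reverse, by simpa using hp⟩

theorem R.trans {x u v w : V} (h : R T x u v) (h' : R T x v w) : R T x u w := by
  obtain ⟨p, hp⟩ := h
  obtain ⟨p', hp'⟩ := h'
  refine ⟨p.append p', ?_⟩
  rw [Walk.mem_support_append_iff]
  tauto

theorem R.of_adj {x u w : V} (h : T.Adj u w) (hu : u ≠ x) (hw : w ≠ x) : R T x u w :=
  ⟨Walk.cons h Walk.nil, by simp [hu.symm, hw.symm]⟩

/-- In a forest, different neighbours of `x` are not joined by a walk avoiding `x`. -/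
theorem R.eq (hT : T.IsAcyclic) {x b c : V} (hb : T.Adj x b) (hc : T.Adj x c) (h : R T x b c) :
    b = c := by
  classical
  by_contra hne
  obtain ⟨p, hp⟩ := h
  have hq : (Walk.cons hb.symm (Walk.cons hc Walk.nil)).IsPath := by
    simp [Walk.cons_isPath_iff, hne, hb.ne', hc.ne]
  have h1 : p.toPath = ⟨_, hq⟩ := (hT.subsingleton_path b c).elim _ _
  have h2 : x ∈ (p.toPath : T.Walk b c).support := by
    rw [h1]; simp
  exact hp (Walk.support_bypass_subset_support p h2)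

end Walks

/-! ### The tree is not in the wedge -/

theorem theoremW {V : Type*} {T : SimpleGraph V} (hT : T.IsAcyclic) (hk : 3 ≤ k) (hq : 2 ≤ q)
    {x : V} {b b' : Fin (q + 1) → V} (hinj : Function.Injective b)
    (hxb : ∀ i, T.Adj x (b i)) (hbb : ∀ i, T.Adj (b i) (b' i)) (hbx : ∀ i, b' i ≠ x) :
    IsEmpty (T ↪g gad k q) := by
  classical
  refine ⟨fun f => ?_⟩
  have hR : ∀ i, R T x (b i) (b' i) := fun i => R.of_adj (hbb i) (hxb i).ne' (hbx i)
  have hsep : ∀ i j, R T x (b i) (b j) → i = j := fun i j h =>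
    hinj (R.eq hT (hxb i) (hxb j) h)
  -- the edges are anticomplete
  have hanti : ∀ i j, i ≠ j → ¬ T.Adj (b i) (b j) ∧ ¬ T.Adj (b i) (b' j) ∧
      ¬ T.Adj (b' i) (b j) ∧ ¬ T.Adj (b' i) (b' j) := by
    intro i j hij
    refine ⟨fun h => hij (hsep _ _ ?_), fun h => hij (hsep _ _ ?_), fun h => hij (hsep _ _ ?_),
      fun h => hij (hsep _ _ ?_)⟩
    · exact R.of_adj h (hxb i).ne' (hxb j).ne'
    · exact (R.of_adj h (hxb i).ne' (hbx j)).trans (hR j).symm
    · exact (hR i).trans (R.of_adj h (hbx i) (hxb j).ne')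
    · exact ((hR i).trans (R.of_adj h (hbx i) (hbx j))).trans (hR j).symm
  -- two edges in the same part
  have hfin : ∀ (P : W k q → Prop),
      (∀ u w, P u → P w → ((gad k q).Adj u w ↔ Far (cls u) (cls w))) →
      ∀ i j, i ≠ j → P (f (b i)) → P (f (b' i)) → P (f (b j)) → P (f (b' j)) → False := by
    intro P hP i j hij h1 h2 h3 h4
    obtain ⟨a1, a2, a3, a4⟩ := hanti i j hij
    exact no2K2 hk hP h1 h2 h3 h4 (f.map_adj_iff.2 (hbb i)) (f.map_adj_iff.2 (hbb j))
      (fun h => a1 (f.map_adj_iff.1 h)) (fun h => a2 (f.map_adj_iff.1 h))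
      (fun h => a3 (f.map_adj_iff.1 h)) (fun h => a4 (f.map_adj_iff.1 h))
  by_cases hx : f x = .x
  · -- `x` at the root
    have hex : ∀ i, ∃ t, P1 t (f (b i)) ∧ P1 t (f (b' i)) := by
      intro i
      apply root_edge
      · rw [← hx]; exact f.map_adj_iff.2 (hxb i)
      · exact f.map_adj_iff.2 (hbb i)
      · rw [← hx]
        intro h
        have h1 := f.map_adj_iff.1 h
        exact (hbb i).ne (R.eq hT (hxb i) h1 (hR i))
      · intro h
        exact hbx i (f.injective (h.trans hx.symm))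
    choose t ht using hex
    obtain ⟨i, j, hij, htt⟩ := Fintype.exists_ne_map_eq_of_card_lt t (by simp)
    refine hfin (P1 (t i)) (P1_adj (t i)) i j hij (ht i).1 (ht i).2 ?_ ?_
    · rw [htt]; exact (ht j).1
    · rw [htt]; exact (ht j).2
  · -- `x` is in a copy
    have h01 : (⟨0, by omega⟩ : Fin (q + 1)) ≠ ⟨1, by omega⟩ := by simp
    have h02 : (⟨0, by omega⟩ : Fin (q + 1)) ≠ ⟨2, by omega⟩ := by simp
    have h12 : (⟨1, by omega⟩ : Fin (q + 1)) ≠ ⟨2, by omega⟩ := by simp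
    by_cases hz : ∃ z, f z = .x
    · obtain ⟨z, hz⟩ := hz
      have hzx : z ≠ x := by rintro rfl; exact hx hz
      obtain ⟨i, j, hij, hi, hj⟩ : ∃ i j : Fin (q + 1), i ≠ j ∧ ¬ R T x z (b i) ∧
          ¬ R T x z (b j) := by
        by_cases h0 : R T x z (b ⟨0, by omega⟩)
        · exact ⟨_, _, h12, fun h => h01 (hsep _ _ (h0.symm.trans h)),
            fun h => h02 (hsep _ _ (h0.symm.trans h))⟩
        · by_cases h1 : R T x z (b ⟨1, by omega⟩)
          · exact ⟨_, _, h02, h0, fun h => h12 (hsep _ _ (h1.symm.trans h))⟩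
          · exact ⟨_, _, h01, h0, h1⟩
      have hV : ∀ w, w ≠ x → ¬ R T x z w → ∃ t, P2 t (f w) := by
        intro w hw hR'
        apply nonadj_x
        · rw [← hz]
          intro h
          exact hR' (R.of_adj (f.map_adj_iff.1 h) hzx hw)
        · intro h
          have : w = z := f.injective (h.trans hz.symm)
          subst this
          exact hR' (R.refl hw)
      have hi' : ¬ R T x z (b' i) := fun h => hi (h.trans (hR i).symm)
      have hj' : ¬ R T x z (b' j) := fun h => hj (h.trans (hR j).symm)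
      obtain ⟨t, ht⟩ := hV _ (hxb i).ne' hi
      obtain ⟨t1, ht1⟩ := hV _ (hbx i) hi'
      obtain ⟨t2, ht2⟩ := hV _ (hxb j).ne' hj
      obtain ⟨t3, ht3⟩ := hV _ (hbx j) hj'
      have e1 : t1 = t := Pc_unique (P2_Pc ht1) (Pc_adj (P2_Pc ht) (f.map_adj_iff.2 (hbb i))
        (fun h => by rw [h] at ht1; exact ht1))
      have hxc : Pc t (f x) := Pc_adj (P2_Pc ht) (f.map_adj_iff.2 (hxb i).symm) hx
      have e2 : t2 = t := Pc_unique (P2_Pc ht2) (Pc_adj hxc (f.map_adj_iff.2 (hxb j))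
        (fun h => by rw [h] at ht2; exact ht2))
      have e3 : t3 = t2 := Pc_unique (P2_Pc ht3) (Pc_adj (P2_Pc ht2) (f.map_adj_iff.2 (hbb j))
        (fun h => by rw [h] at ht3; exact ht3))
      subst e3
      subst e2
      subst e1
      exact hfin _ (P2_adj _) i j hij ht ht1 ht2 ht3
    · push Not at hz
      by_cases hc : ∃ t, Pc t (f x)
      · obtain ⟨t, ht⟩ := hc
        have hb : ∀ i, Pc t (f (b i)) := fun i => Pc_adj ht (f.map_adj_iff.2 (hxb i)) (hz _)
        have hb' : ∀ i, Pc t (f (b' i)) := fun i => Pc_adj (hb i) (f.map_adj_iff.2 (hbb i)) (hz _)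
        have he : ∀ i, (P1 t (f (b i)) ∧ P1 t (f (b' i))) ∨ (P2 t (f (b i)) ∧ P2 t (f (b' i))) :=
          fun i => edge_part (hb i) (hb' i) (f.map_adj_iff.2 (hbb i))
        have h1 : ∀ i j, i ≠ j → (P1 t (f (b i)) ∧ P1 t (f (b' i))) →
            (P1 t (f (b j)) ∧ P1 t (f (b' j))) → False := fun i j hij hi hj =>
          hfin _ (P1_adj t) i j hij hi.1 hi.2 hj.1 hj.2
        have h2 : ∀ i j, i ≠ j → (P2 t (f (b i)) ∧ P2 t (f (b' i))) →
            (P2 t (f (b j)) ∧ P2 t (f (b' j))) → False := fun i j hij hi hj =>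
          hfin _ (P2_adj t) i j hij hi.1 hi.2 hj.1 hj.2
        rcases he ⟨0, by omega⟩ with a0 | a0 <;> rcases he ⟨1, by omega⟩ with a1 | a1 <;>
          rcases he ⟨2, by omega⟩ with a2 | a2
        · exact h1 _ _ h01 a0 a1
        · exact h1 _ _ h01 a0 a1
        · exact h1 _ _ h02 a0 a2
        · exact h2 _ _ h12 a1 a2
        · exact h1 _ _ h12 a1 a2
        · exact h2 _ _ h02 a0 a2
        · exact h2 _ _ h01 a0 a1
        · exact h2 _ _ h01 a0 a1
      · obtain ⟨j, hj⟩ := not_copy hx hc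
        have hl : ∀ i, ∃ j, f (b i) = .l j := by
          intro i
          have h := f.map_adj_iff.2 (hxb i)
          rw [hj] at h
          rcases hfb : f (b i) with _ | ⟨t1, m, hm⟩ | ⟨t1, i', c⟩ | j'
          · exact absurd hfb (hz _)
          · rw [hfb] at h; exact absurd h (by simp [gad, wadj])
          · rw [hfb] at h; exact absurd h (by simp [gad, wadj])
          · exact ⟨j', rfl⟩
        obtain ⟨j0, hj0⟩ := hl ⟨0, by omega⟩
        obtain ⟨j1, hj1⟩ := hl ⟨1, by omega⟩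
        apply (hanti _ _ h01).1
        apply f.map_adj_iff.1
        rw [hj0, hj1]
        change j0 ≠ j1
        rintro rfl
        exact h01 (hinj (f.injective (hj0.trans hj1.symm)))

/-- Criterion for the gadget with one copy. -/
theorem crit1 {V : Type*} {T : SimpleGraph V} (hT : T.IsAcyclic) (hc : T.Connected) (hk : 3 ≤ k)
    {a a' : Fin 3 → V} (haa : ∀ i, T.Adj (a i) (a' i))
    (hanti : ∀ i j, i ≠ j → ¬ T.Adj (a i) (a j) ∧ ¬ T.Adj (a i) (a' j) ∧
      ¬ T.Adj (a' i) (a j) ∧ ¬ T.Adj (a' i) (a' j))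
    (hcrit : ∀ z c, T.Adj z c →
      (∃ u w u' w', T.Adj z u ∧ T.Adj z w ∧ u ≠ w ∧ T.Adj u u' ∧ T.Adj w w' ∧ u' ≠ z ∧ w' ≠ z) ∨
      (∃ u u' w w', T.Adj u u' ∧ T.Adj w w' ∧ ¬ T.Adj u w ∧ ¬ T.Adj u w' ∧ ¬ T.Adj u' w ∧
        ¬ T.Adj u' w' ∧ u ≠ z ∧ u' ≠ z ∧ w ≠ z ∧ w' ≠ z ∧ u ≠ c ∧ u' ≠ c ∧ w ≠ c ∧ w' ≠ c)) :
    IsEmpty (T ↪g gad k 1) := by
  classical
  refine ⟨fun f => ?_⟩
  have htri : ∀ z u w, T.Adj z u → T.Adj z w → T.Adj u w → False := by
    intro z u w h1 h2 h3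
    exact h3.ne (R.eq hT h1 h2 (R.of_adj h3 h1.ne' h2.ne'))
  have h01 : (0 : Fin 3) ≠ 1 := by decide
  have h02 : (0 : Fin 3) ≠ 2 := by decide
  have h12 : (1 : Fin 3) ≠ 2 := by decide
  by_cases hz : ∃ z, f z = .x
  · obtain ⟨z, hz⟩ := hz
    -- a non-leaf neighbour of `z`
    obtain ⟨c, c', hzc, hcc, hcz⟩ : ∃ c c', T.Adj z c ∧ T.Adj c c' ∧ c' ≠ z := by
      by_contra hcon
      push Not at hcon
      have hcl : ∀ u w, T.Reachable u w → (u = z ∨ T.Adj z u) → (w = z ∨ T.Adj z w) := by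
        rintro u w ⟨p⟩
        induction p with
        | nil => exact id
        | cons h p ih =>
          intro hu
          apply ih
          rcases hu with rfl | hu
          · exact Or.inr h
          · exact Or.inl (hcon _ _ hu h)
      have hall : ∀ w, w = z ∨ T.Adj z w := fun w => hcl z w (hc.preconnected z w) (Or.inl rfl)
      have hedge : ∀ i, a i = z ∨ a' i = z := by
        intro i
        rcases hall (a i) with h | h
        · exact Or.inl h
        · exact Or.inr (hcon _ _ h (haa i))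
      obtain ⟨b1, b2, b3, b4⟩ := hanti 0 1 h01
      rcases hedge 0 with h | h <;> rcases hedge 1 with h' | h'
      · exact b2 (by rw [h, ← h']; exact haa 1)
      · exact b1 (by rw [h, ← h']; exact (haa 1).symm)
      · exact b4 (by rw [h, ← h']; exact haa 1)
      · exact b3 (by rw [h, ← h']; exact (haa 1).symm)
    -- two branches at `z` are impossible
    have htwo : ∀ u w u' w', T.Adj z u → T.Adj z w → u ≠ w → T.Adj u u' → T.Adj w w' →
        u' ≠ z → w' ≠ z → False := by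
      intro u w u' w' h1 h2 h3 h4 h5 h6 h7
      have hu : R T z u u' := R.of_adj h4 h1.ne' h6
      have hw : R T z w w' := R.of_adj h5 h2.ne' h7
      have hn : ¬ R T z u w := fun h => h3 (R.eq hT h1 h2 h)
      obtain ⟨t, ht1, ht2⟩ := root_edge (u := f u) (w := f u')
        (by rw [← hz]; exact f.map_adj_iff.2 h1) (f.map_adj_iff.2 h4)
        (by rw [← hz]; exact fun h => htri z u u' h1 (f.map_adj_iff.1 h) h4)
        (by rw [← hz]; exact fun h => h6 (f.injective h))
      obtain ⟨t', ht1', ht2'⟩ := root_edge (u := f w) (w := f w')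
        (by rw [← hz]; exact f.map_adj_iff.2 h2) (f.map_adj_iff.2 h5)
        (by rw [← hz]; exact fun h => htri z w w' h2 (f.map_adj_iff.1 h) h5)
        (by rw [← hz]; exact fun h => h7 (f.injective h))
      obtain rfl : t = t' := Subsingleton.elim _ _
      refine no2K2 hk (P1_adj t) ht1 ht2 ht1' ht2' (f.map_adj_iff.2 h4) (f.map_adj_iff.2 h5)
        (fun h => hn ?_) (fun h => hn ?_) (fun h => hn ?_) (fun h => hn ?_)
      · exact R.of_adj (f.map_adj_iff.1 h) h1.ne' h2.ne'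
      · exact (R.of_adj (f.map_adj_iff.1 h) h1.ne' h7).trans hw.symm
      · exact hu.trans (R.of_adj (f.map_adj_iff.1 h) h6 h2.ne')
      · exact (hu.trans (R.of_adj (f.map_adj_iff.1 h) h6 h7)).trans hw.symm
    rcases hcrit z c hzc with ⟨u, w, u', w', h1, h2, h3, h4, h5, h6, h7⟩ |
      ⟨u, u', w, w', h1, h2, h3, h4, h5, h6, h7, h8, h9, h10, h11, h12, h13, h14⟩
    · exact htwo u w u' w' h1 h2 h3 h4 h5 h6 h7
    · have hV : ∀ s s', T.Adj s s' → s ≠ z → s' ≠ z → s ≠ c → ∃ t, P2 t (f s) := by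
        intro s s' hss hs hs' hsc
        apply nonadj_x
        · rw [← hz]
          intro h
          exact htwo s c s' c' (f.map_adj_iff.1 h) hzc hsc hss hcc hs' hcz
        · rw [← hz]; exact fun h => hs (f.injective h)
      obtain ⟨t1, e1⟩ := hV u u' h1 h7 h8 h11
      obtain ⟨t2, e2⟩ := hV u' u h1.symm h8 h7 h12
      obtain ⟨t3, e3⟩ := hV w w' h2 h9 h10 h13
      obtain ⟨t4, e4⟩ := hV w' w h2.symm h10 h9 h14
      obtain rfl : t1 = t2 := Subsingleton.elim _ _
      obtain rfl : t1 = t3 := Subsingleton.elim _ _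
      obtain rfl : t1 = t4 := Subsingleton.elim _ _
      exact no2K2 hk (P2_adj t1) e1 e2 e3 e4 (f.map_adj_iff.2 h1) (f.map_adj_iff.2 h2)
        (fun h => h3 (f.map_adj_iff.1 h)) (fun h => h4 (f.map_adj_iff.1 h))
        (fun h => h5 (f.map_adj_iff.1 h)) (fun h => h6 (f.map_adj_iff.1 h))
  · push Not at hz
    by_cases hcp : ∃ v t, Pc t (f v)
    · obtain ⟨v, t, ht⟩ := hcp
      have hall : ∀ w, Pc t (f w) := by
        intro w
        have hcl : ∀ u w, T.Reachable u w → Pc t (f u) → Pc t (f w) := by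
          rintro u w ⟨p⟩
          induction p with
          | nil => exact id
          | cons h p ih =>
            intro hu
            exact ih (Pc_adj hu (f.map_adj_iff.2 h) (hz _))
        exact hcl v w (hc.preconnected v w) ht
      have he : ∀ i, (P1 t (f (a i)) ∧ P1 t (f (a' i))) ∨ (P2 t (f (a i)) ∧ P2 t (f (a' i))) :=
        fun i => edge_part (hall _) (hall _) (f.map_adj_iff.2 (haa i))
      have hfin : ∀ (P : W k 1 → Prop),
          (∀ u w, P u → P w → ((gad k 1).Adj u w ↔ Far (cls u) (cls w))) →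
          ∀ i j, i ≠ j → (P (f (a i)) ∧ P (f (a' i))) → (P (f (a j)) ∧ P (f (a' j))) → False := by
        intro P hP i j hij h1 h2
        obtain ⟨a1, a2, a3, a4⟩ := hanti i j hij
        exact no2K2 hk hP h1.1 h1.2 h2.1 h2.2 (f.map_adj_iff.2 (haa i)) (f.map_adj_iff.2 (haa j))
          (fun h => a1 (f.map_adj_iff.1 h)) (fun h => a2 (f.map_adj_iff.1 h))
          (fun h => a3 (f.map_adj_iff.1 h)) (fun h => a4 (f.map_adj_iff.1 h))
      have h1 := hfin _ (P1_adj t)
      have h2 := hfin _ (P2_adj t)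
      rcases he 0 with a0 | a0 <;> rcases he 1 with a1 | a1 <;> rcases he 2 with a2 | a2
      · exact h1 _ _ h01 a0 a1
      · exact h1 _ _ h01 a0 a1
      · exact h1 _ _ h02 a0 a2
      · exact h2 _ _ h12 a1 a2
      · exact h1 _ _ h12 a1 a2
      · exact h2 _ _ h02 a0 a2
      · exact h2 _ _ h01 a0 a1
      · exact h2 _ _ h01 a0 a1
    · push Not at hcp
      have hl : ∀ v, ∃ j, f v = .l j := fun v => not_copy (hz v) (by push Not; exact hcp v)
      obtain ⟨j0, hj0⟩ := hl (a 0)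
      obtain ⟨j1, hj1⟩ := hl (a 1)
      obtain ⟨j2, hj2⟩ := hl (a' 1)
      obtain ⟨b1, b2, b3, b4⟩ := hanti 0 1 h01
      have e1 : j0 = j1 := by
        by_contra hne
        exact b1 (f.map_adj_iff.1 (by rw [hj0, hj1]; exact hne))
      have e2 : j0 = j2 := by
        by_contra hne
        exact b2 (f.map_adj_iff.1 (by rw [hj0, hj2]; exact hne))
      have h := haa 1
      apply h.ne
      apply f.injective
      rw [hj1, hj2, ← e1, ← e2]

/-! ### Rooted goodness -/

/-- Vertices of the skeleton: centre, legs, leaf. -/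
inductive Sk (q : ℕ) : Type
  | c : Sk q
  | p (t : Fin q) (i : Fin 4) : Sk q
  | l : Sk q

/-- Adjacency in the skeleton. -/
def skadj : Sk q → Sk q → Prop
  | .c, .p _ i => i = 0
  | .p _ i, .c => i = 0
  | .c, .l => True
  | .l, .c => True
  | .p t i, .p t' j => t = t' ∧ ((i : ℕ) + 1 = j ∨ (j : ℕ) + 1 = i)
  | _, _ => False

/-- The spider with `q` legs with four vertices and one leaf. -/
def sk (q : ℕ) : SimpleGraph (Sk q) where
  Adj := skadj
  symm := ⟨by
    rintro (_ | ⟨t, i⟩ | _) (_ | ⟨t', i'⟩ | _) h <;> simp only [skadj] at h ⊢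
    · exact h
    · exact h
    · exact ⟨h.1.symm, h.2.symm⟩⟩
  loopless := ⟨by
    rintro (_ | ⟨t, i⟩ | _) h <;> simp only [skadj] at h
    omega⟩

theorem finite_W (hk : 3 ≤ k) : Finite (W k q) := by
  have : NeZero (2 * k - 1) := ⟨by omega⟩
  refine Finite.of_injective (β := Option ((Fin q × ZMod (2 * k - 1)) ⊕
    ((Fin q × Bool × ZMod (2 * k - 1)) ⊕ Fin (k - 2)))) (fun w => match w with
    | .x => none
    | .d t m _ => some (Sum.inl (t, m))
    | .v t i c => some (Sum.inr (Sum.inl (t, i, c)))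
    | .l j => some (Sum.inr (Sum.inr j))) ?_
  rintro (_ | ⟨t, m, hm⟩ | ⟨t, i, c⟩ | j) (_ | ⟨t', m', hm'⟩ | ⟨t', i', c'⟩ | j') h <;>
    simp only [Option.some.injEq, Sum.inl.injEq, Sum.inr.injEq, Prod.mk.injEq, reduceCtorEq] at h
  · rfl
  · obtain ⟨rfl, rfl⟩ := h; rfl
  · obtain ⟨rfl, rfl, rfl⟩ := h; rfl
  · subst h; rfl

/-- A clique joined to the root is not inside `Q`. -/
theorem exists_notMem {Q : Set (W k q)} (hk : 3 ≤ k) (hx : .x ∈ Q)
    (hQ : (gad k q).CliqueFreeOn Q (k - 1)) (g : Fin (k - 2) → W k q)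
    (hg : ∀ i j, i ≠ j → (gad k q).Adj (g i) (g j)) (hg' : ∀ i, (gad k q).Adj .x (g i)) :
    ∃ i, g i ∉ Q := by
  classical
  by_contra hcon
  push Not at hcon
  have hinj : Function.Injective g := by
    intro i j hij
    by_contra hne
    exact (hg i j hne).ne hij
  refine hQ (t := insert .x (Finset.univ.image g)) ?_ ⟨?_, ?_⟩
  · intro u hu
    rw [Finset.coe_insert] at hu
    rcases hu with rfl | hu
    · exact hx
    · obtain ⟨i, -, rfl⟩ := Finset.mem_image.1 (Finset.mem_coe.1 hu)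
      exact hcon i
  · rw [Finset.coe_insert]
    intro u hu w hw huw
    rcases hu with rfl | hu <;> rcases hw with rfl | hw
    · exact absurd rfl huw
    · obtain ⟨i, -, rfl⟩ := Finset.mem_image.1 (Finset.mem_coe.1 hw)
      exact hg' i
    · obtain ⟨i, -, rfl⟩ := Finset.mem_image.1 (Finset.mem_coe.1 hu)
      exact (hg' i).symm
    · obtain ⟨i, -, rfl⟩ := Finset.mem_image.1 (Finset.mem_coe.1 hu)
      obtain ⟨j, -, rfl⟩ := Finset.mem_image.1 (Finset.mem_coe.1 hw)
      exact hg i j (fun h => huw (by rw [h]))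
  · rw [Finset.card_insert_of_notMem, Finset.card_image_of_injective _ hinj, Finset.card_univ,
      Fintype.card_fin]
    · omega
    · intro h
      obtain ⟨i, -, hi⟩ := Finset.mem_image.1 h
      exact (hg' i).ne hi.symm

/-- A `D`-vertex outside `Q` in a class of the form `e + 2 i`. -/
theorem exists_D {Q : Set (W k q)} (hk : 3 ≤ k) (hx : .x ∈ Q)
    (hQ : (gad k q).CliqueFreeOn Q (k - 1)) (t : Fin q) (e : ℕ) (he : 3 ≤ e) (he' : e ≤ 4) :
    ∃ (i : ℕ) (_ : i < k - 2) (h : Far ((e + 2 * i : ℕ) : ZMod (2 * k - 1)) 1),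
      W.d t ((e + 2 * i : ℕ) : ZMod (2 * k - 1)) h ∉ Q := by
  have hfar : ∀ i : Fin (k - 2), Far ((e + 2 * (i : ℕ) : ℕ) : ZMod (2 * k - 1)) 1 := by
    intro i
    have h1 := far_add (1 : ZMod (2 * k - 1)) (d := e - 1 + 2 * (i : ℕ)) (by omega)
      (by have := i.2; omega)
    have h2 : (1 : ZMod (2 * k - 1)) = ((1 : ℕ) : ZMod (2 * k - 1)) := by simp
    rw [h2, ← Nat.cast_add] at h1
    have h3 : 1 + (e - 1 + 2 * (i : ℕ)) = e + 2 * (i : ℕ) := by omega
    rw [h3, ← h2] at h1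
    exact h1.symm
  have hfar2 : ∀ i j : Fin (k - 2), i < j → Far ((e + 2 * (i : ℕ) : ℕ) : ZMod (2 * k - 1))
      ((e + 2 * (j : ℕ) : ℕ) : ZMod (2 * k - 1)) := by
    intro i j hij
    have hij' : (i : ℕ) < j := hij
    have h1 := far_add ((e + 2 * (i : ℕ) : ℕ) : ZMod (2 * k - 1))
      (d := 2 * ((j : ℕ) - i)) (by omega) (by have := j.2; omega)
    rw [← Nat.cast_add] at h1
    have h2 : e + 2 * (i : ℕ) + 2 * ((j : ℕ) - i) = e + 2 * (j : ℕ) := by omega
    rwa [h2] at h1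
  obtain ⟨i, hi⟩ := exists_notMem hk hx hQ (fun i => W.d t _ (hfar i)) (by
    intro i j hij
    refine ⟨rfl, ?_⟩
    rcases lt_or_gt_of_ne hij with h | h
    · exact hfar2 _ _ h
    · exact (hfar2 _ _ h).symm) (fun i => trivial)
  exact ⟨i, i.2, hfar i, hi⟩

/-- Two far classes whose `V`-vertices are outside `Q`. -/
theorem exists_V {Q : Set (W k q)} (hk : 3 ≤ k) (hQ : (gad k q).CliqueFreeOn Q (k - 1))
    (t : Fin q) : ∃ a b : ZMod (2 * k - 1), Far a b ∧ (∀ i, W.v t i a ∉ Q) ∧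
      (∀ i, W.v t i b ∉ Q) := by
  classical
  let F : Set (ZMod (2 * k - 1)) := {c | ∃ i, W.v t i c ∈ Q}
  by_cases hF : F.Nonempty
  · obtain ⟨i, -, hi, j, hj, -, hij⟩ := exists_path hk F hF (by
      intro s hs hfar
      by_contra hcard
      push Not at hcard
      obtain ⟨s', hs', hs'c⟩ := Finset.exists_subset_card_eq hcard
      have hch : ∀ c, ∃ i, c ∈ F → W.v t i c ∈ Q := by
        intro c
        by_cases hc : c ∈ F
        · obtain ⟨i, hi⟩ := hc
          exact ⟨i, fun _ => hi⟩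
        · exact ⟨true, fun h => absurd h hc⟩
      choose g hg using hch
      refine hQ (t := s'.image (fun c => W.v t (g c) c)) ?_ ⟨?_, ?_⟩
      · intro u hu
        obtain ⟨c, hc, rfl⟩ := Finset.mem_image.1 (Finset.mem_coe.1 hu)
        exact hg c (hs c (hs' hc))
      · intro u hu w hw huw
        obtain ⟨c, hc, rfl⟩ := Finset.mem_image.1 (Finset.mem_coe.1 hu)
        obtain ⟨c', hc', rfl⟩ := Finset.mem_image.1 (Finset.mem_coe.1 hw)
        exact ⟨rfl, hfar c (hs' hc) c' (hs' hc') (fun h => huw (by rw [h]))⟩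
      · rw [Finset.card_image_of_injective, hs'c]
        intro c c' h
        exact (W.v.inj h).2.2)
    exact ⟨i + 1, j, hij, fun e he => hi ⟨e, he⟩, fun e he => hj ⟨e, he⟩⟩
  · have h2 : ∀ c i, W.v t i c ∉ Q := fun c i h => hF ⟨c, i, h⟩
    have h3 := far_add (0 : ZMod (2 * k - 1)) (d := 2) le_rfl (by omega)
    exact ⟨_, _, h3, fun i => h2 _ i, fun i => h2 _ i⟩

/-- A leg outside `Q`. -/
theorem exists_leg {Q : Set (W k q)} (hk : 3 ≤ k) (hx : .x ∈ Q)
    (hQ : (gad k q).CliqueFreeOn Q (k - 1)) (t : Fin q) :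
    ∃ (m : ZMod (2 * k - 1)) (hm : Far m 1) (a b : ZMod (2 * k - 1)), Far m a ∧ Far a b ∧
      W.d t m hm ∉ Q ∧ (∀ i, W.v t i a ∉ Q) ∧ (∀ i, W.v t i b ∉ Q) := by
  obtain ⟨i1, hi1, h1, hQ1⟩ := exists_D hk hx hQ t 3 le_rfl (by omega)
  obtain ⟨i2, hi2, h2, hQ2⟩ := exists_D hk hx hQ t 4 (by omega) le_rfl
  obtain ⟨a, b, hab, ha, hb⟩ := exists_V hk hQ t
  have hne : ((3 + 2 * i1 : ℕ) : ZMod (2 * k - 1)) ≠ ((4 + 2 * i2 : ℕ) : ZMod (2 * k - 1)) := by
    intro h
    rw [ZMod.natCast_eq_natCast_iff', Nat.mod_eq_of_lt (by omega), Nat.mod_eq_of_lt (by omega)] at h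
    omega
  by_cases c1 : Far a ((3 + 2 * i1 : ℕ) : ZMod (2 * k - 1))
  · exact ⟨_, h1, a, b, c1.symm, hab, hQ1, ha, hb⟩
  by_cases c2 : Far b ((3 + 2 * i1 : ℕ) : ZMod (2 * k - 1))
  · exact ⟨_, h1, b, a, c2.symm, hab.symm, hQ1, hb, ha⟩
  by_cases c3 : Far a ((4 + 2 * i2 : ℕ) : ZMod (2 * k - 1))
  · exact ⟨_, h2, a, b, c3.symm, hab, hQ2, ha, hb⟩
  by_cases c4 : Far b ((4 + 2 * i2 : ℕ) : ZMod (2 * k - 1))
  · exact ⟨_, h2, b, a, c4.symm, hab.symm, hQ2, hb, ha⟩
  exact absurd (near_unique (by omega) hab c1 c2 c3 c4) hne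

theorem rooted (hk : 3 ≤ k) (Q : Set (W k q)) (hx : .x ∈ Q)
    (hQ : (gad k q).CliqueFreeOn Q (k - 1)) :
    ∃ φ : sk q ↪g gad k q, φ .c = .x ∧ ∀ y, y ≠ .c → φ y ∉ Q := by
  classical
  choose m hm a b hma hab hQm hQa hQb using fun t => exists_leg hk hx hQ t
  obtain ⟨j, hj⟩ := exists_notMem hk hx hQ (fun j => W.l j) (fun i j h => h) (fun i => trivial)
  let g : Sk q → W k q := fun y => match y with
    | .c => .x
    | .l => .l j
    | .p t ⟨0, _⟩ => .d t (m t) (hm t)
    | .p t ⟨1, _⟩ => .v t false (a t)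
    | .p t ⟨2, _⟩ => .v t true (b t)
    | .p t ⟨3, _⟩ => .v t true (a t)
  have hg : ∀ y y', (gad k q).Adj (g y) (g y') ↔ (sk q).Adj y y' := by
    rintro (_ | ⟨t, i⟩ | _) (_ | ⟨t', i'⟩ | _)
    · simp [g, gad, sk, wadj, skadj]
    · fin_cases i' <;> simp [g, gad, sk, wadj, skadj]
    · simp [g, gad, sk, wadj, skadj]
    · fin_cases i <;> simp [g, gad, sk, wadj, skadj]
    · by_cases htt : t = t'
      · subst htt
        have n1 := not_far_self (a t)
        have n2 := not_far_self (b t)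
        have n3 := not_far_self (m t)
        have f1 := hma t
        have f2 := hab t
        have f3 := (hab t).symm
        fin_cases i <;> fin_cases i' <;> simp [g, gad, sk, wadj, skadj, n1, n2, n3, f1, f2, f3]
      · fin_cases i <;> fin_cases i' <;> simp [g, gad, sk, wadj, skadj, htt, Ne.symm htt]
    · fin_cases i <;> simp [g, gad, sk, wadj, skadj]
    · simp [g, gad, sk, wadj, skadj]
    · fin_cases i' <;> simp [g, gad, sk, wadj, skadj]
    · simp [g, gad, sk, wadj, skadj]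
  have hinj : Function.Injective g := by
    rintro (_ | ⟨t, i⟩ | _) (_ | ⟨t', i'⟩ | _) h
    · rfl
    · exfalso; fin_cases i' <;> simp [g] at h
    · exfalso; simp [g] at h
    · exfalso; fin_cases i <;> simp [g] at h
    · have n1 : ∀ t, a t ≠ b t := fun t => (hab t).ne
      fin_cases i <;> fin_cases i' <;> simp [g] at h <;>
        first
        | (obtain rfl := h; rfl)
        | (obtain rfl := h.1; rfl)
        | (obtain ⟨rfl, h2⟩ := h; exact absurd h2 (n1 _))
        | (obtain ⟨rfl, h2⟩ := h; exact absurd h2.symm (n1 _))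
    · exfalso; fin_cases i <;> simp [g] at h
    · exfalso; simp [g] at h
    · exfalso; fin_cases i' <;> simp [g] at h
    · rfl
  refine ⟨⟨⟨g, hinj⟩, fun {y y'} => hg y y'⟩, rfl, ?_⟩
  rintro (_ | ⟨t, i⟩ | _) hy
  · exact absurd rfl hy
  · fin_cases i
    · exact hQm t
    · exact hQa t _
    · exact hQb t _
    · exact hQa t _
  · exact hj

/-- If the tree is not in the wedge, the skeleton is rooted-good. -/
theorem rootGood_sk {τ : Type*} {T : SimpleGraph τ} (hk : 3 ≤ k) (h : IsEmpty (T ↪g gad k q)) :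
    RootGood T k (sk q) .c := by
  have := finite_W (q := q) hk
  exact rootGood_of (F := gad k q) ⟨h, gad_cliqueFree hk⟩ .x (rooted hk)

/-- Theorem W: a forest with `q + 1 ≥ 3` nontrivial branches at `x`. -/
theorem rootGood_W {τ : Type*} {T : SimpleGraph τ} (hT : T.IsAcyclic) (hk : 3 ≤ k) (hq : 2 ≤ q)
    {x : τ} {b b' : Fin (q + 1) → τ} (hinj : Function.Injective b)
    (hxb : ∀ i, T.Adj x (b i)) (hbb : ∀ i, T.Adj (b i) (b' i)) (hbx : ∀ i, b' i ≠ x) :
    RootGood T k (sk q) .c :=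
  rootGood_sk hk (theoremW hT hk hq hinj hxb hbb hbx)

end Pool.Agent.SA58
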