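import Pool.Agent.SA58.GadG
import Pool.Agent.SA27.Check

set_option autoImplicit false

/-! Kernel-friendly form of criterion (4) and the skeletons as parent lists. -/

namespace Pool.Agent.SA58

open SimpleGraph Pool.Agent.SA33 Pool.Agent.SA97 Pool.Agent.SA32 Pool.Agent.SA27

/-- `f i` for some `i < n`. -/
def anyB : ℕ → (ℕ → Bool) → Bool
  | 0, _ => false
  | n + 1, f => f n || anyB n f

theorem anyB_spec {n : ℕ} {f : ℕ → Bool} (h : anyB n f = true) : ∃ i, i < n ∧ f i = true := by
  induction n with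
  | zero => exact absurd h (by simp [anyB])
  | succ n ih =>
    unfold anyB at h
    rw [Bool.or_eq_true] at h
    rcases h with h | h
    · exact ⟨n, Nat.lt_succ_self n, h⟩
    · obtain ⟨i, h1, h2⟩ := ih h
      exact ⟨i, Nat.lt_succ_of_lt h1, h2⟩

/-- The edges `i - q[i]` and `j - q[j]` are anticomplete. -/
def antiB (q : List ℕ) (i j : ℕ) : Bool :=
  !(padj q i j) && (!(padj q i (q.getD j 0)) && (!(padj q (q.getD i 0) j) &&
    !(padj q (q.getD i 0) (q.getD j 0))))

/-- `i` is a vertex with a parent in the list. -/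
def edgeB (q : List ℕ) (i : ℕ) : Bool := padj q i (q.getD i 0) && Nat.blt (q.getD i 0) q.length

/-- The edge `i - q[i]` avoids `z`. -/
def avoidB (q : List ℕ) (i z : ℕ) : Bool := !(Nat.beq i z) && !(Nat.beq (q.getD i 0) z)

/-- `u` is a nonleaf neighbour of `z`. -/
def nlB (q : List ℕ) (z u : ℕ) : Bool := padj q z u && Nat.ble 2 (degB q u q.length)

/-- Criterion (4) as a Bool function. -/
def crit1B (q : List ℕ) : Bool :=
  (anyB q.length fun i => edgeB q i && anyB i fun j => edgeB q j && (antiB q i j && anyB j fun l =>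
    edgeB q l && (antiB q i l && antiB q j l))) &&
  allB q.length fun z => allB q.length fun c => !(padj q z c) ||
    ((anyB q.length fun u => nlB q z u && anyB u fun w => nlB q z w) ||
     (anyB q.length fun i => edgeB q i && (avoidB q i z && (avoidB q i c && anyB i fun j =>
        edgeB q j && (avoidB q j z && (avoidB q j c && antiB q i j))))))

theorem nbeq_false {a b : ℕ} (h : (!(Nat.beq a b)) = true) : a ≠ b := by
  rintro rfl
  rw [Nat.beq_refl] at h
  exact absurd h (by decide)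

theorem antiB_spec {q : List ℕ} {i j : ℕ} (h : antiB q i j = true) :
    ¬ (padj q i j = true) ∧ ¬ (padj q i (q.getD j 0) = true) ∧
      ¬ (padj q (q.getD i 0) j = true) ∧ ¬ (padj q (q.getD i 0) (q.getD j 0) = true) := by
  unfold antiB at h
  simp only [Bool.and_eq_true, Bool.not_eq_true'] at h
  simp only [Bool.not_eq_true]
  exact h

theorem edgeB_spec {q : List ℕ} {i : ℕ} (h : edgeB q i = true) :
    padj q i (q.getD i 0) = true ∧ q.getD i 0 < q.length := by
  unfold edgeB at h
  rw [Bool.and_eq_true] at h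
  exact ⟨h.1, Nat.le_of_ble_eq_true h.2⟩

theorem avoidB_spec {q : List ℕ} {i z : ℕ} (h : avoidB q i z = true) :
    i ≠ z ∧ q.getD i 0 ≠ z := by
  unfold avoidB at h
  rw [Bool.and_eq_true] at h
  exact ⟨nbeq_false h.1, nbeq_false h.2⟩

theorem nlB_spec {q : List ℕ} {z u : ℕ} (h : nlB q z u = true) :
    padj q z u = true ∧ ∃ u', u' < q.length ∧ padj q u u' = true ∧ u' ≠ z := by
  unfold nlB at h
  rw [Bool.and_eq_true] at h
  obtain ⟨j, j', h1, h2, h3, h4, h5⟩ := degB_two (Nat.le_of_ble_eq_true h.2)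
  refine ⟨h.1, ?_⟩
  by_cases hj : j = z
  · exact ⟨j', h2, h5, fun h' => h3 (hj.trans h'.symm)⟩
  · exact ⟨j, h1, h4, hj⟩

theorem antiB_comm {q : List ℕ} {i j : ℕ} (h : antiB q i j = true) : antiB q j i = true := by
  unfold antiB at h ⊢
  simp only [Bool.and_eq_true] at h ⊢
  rw [padj_comm q j i, padj_comm q j (q.getD i 0), padj_comm q (q.getD j 0) i,
    padj_comm q (q.getD j 0) (q.getD i 0)]
  tauto

theorem crit1B_spec {q : List ℕ} (h : crit1B q = true) (hT : (ptree q).IsTree) {k : ℕ}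
    (hk : 3 ≤ k) : IsEmpty (ptree q ↪g gad k 1) := by
  unfold crit1B at h
  rw [Bool.and_eq_true] at h
  obtain ⟨h1, h2⟩ := h
  obtain ⟨i, hi, h1⟩ := anyB_spec h1
  rw [Bool.and_eq_true] at h1
  obtain ⟨ei, h1⟩ := h1
  obtain ⟨j, hj, h1⟩ := anyB_spec h1
  simp only [Bool.and_eq_true] at h1
  obtain ⟨ej, aij, h1⟩ := h1
  obtain ⟨l, hl, h1⟩ := anyB_spec h1
  simp only [Bool.and_eq_true] at h1
  obtain ⟨el, ail, ajl⟩ := h1
  have ei' := edgeB_spec ei
  have ej' := edgeB_spec ej
  have el' := edgeB_spec el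
  let a : Fin 3 → Fin q.length := ![⟨i, hi⟩, ⟨j, by omega⟩, ⟨l, by omega⟩]
  let a' : Fin 3 → Fin q.length := ![⟨_, ei'.2⟩, ⟨_, ej'.2⟩, ⟨_, el'.2⟩]
  have haa : ∀ s, (ptree q).Adj (a s) (a' s) := by
    intro s
    fin_cases s
    · exact ei'.1
    · exact ej'.1
    · exact el'.1
  refine crit1 hT.2 hT.1 hk (a := a) (a' := a') haa ?_ ?_
  · intro s t hst
    fin_cases s <;> fin_cases t
    · exact absurd rfl hst
    · exact antiB_spec aij
    · exact antiB_spec ail
    · exact antiB_spec (antiB_comm aij)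
    · exact absurd rfl hst
    · exact antiB_spec ajl
    · exact antiB_spec (antiB_comm ail)
    · exact antiB_spec (antiB_comm ajl)
    · exact absurd rfl hst
  · intro z c hzc
    have h3 := allB_spec (allB_spec h2 z.2) c.2
    have hzc' : padj q z c = true := hzc
    rw [hzc', Bool.not_true, Bool.false_or, Bool.or_eq_true] at h3
    rcases h3 with h3 | h3
    · left
      obtain ⟨u, hu, h3⟩ := anyB_spec h3
      rw [Bool.and_eq_true] at h3
      obtain ⟨h4, h3⟩ := h3
      obtain ⟨w, hw, h5⟩ := anyB_spec h3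
      obtain ⟨h6, u', hu', h7, h8⟩ := nlB_spec h4
      obtain ⟨h9, w', hw', h10, h11⟩ := nlB_spec h5
      exact ⟨⟨u, hu⟩, ⟨w, by omega⟩, ⟨u', hu'⟩, ⟨w', hw'⟩, h6, h9,
        fun h => absurd (congrArg Fin.val h) (by simp only; omega), h7, h10,
        fun h => h8 (congrArg Fin.val h), fun h => h11 (congrArg Fin.val h)⟩
    · right
      obtain ⟨i, hi, h3⟩ := anyB_spec h3
      simp only [Bool.and_eq_true] at h3
      obtain ⟨e1, v1, v2, h3⟩ := h3
      obtain ⟨j, hj, h3⟩ := anyB_spec h3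
      simp only [Bool.and_eq_true] at h3
      obtain ⟨e2, v3, v4, h3⟩ := h3
      have e1' := edgeB_spec e1
      have e2' := edgeB_spec e2
      obtain ⟨n1, n2, n3, n4⟩ := antiB_spec h3
      have v1' := avoidB_spec v1
      have v2' := avoidB_spec v2
      have v3' := avoidB_spec v3
      have v4' := avoidB_spec v4
      exact ⟨⟨i, hi⟩, ⟨_, e1'.2⟩, ⟨j, by omega⟩, ⟨_, e2'.2⟩, e1'.1, e2'.1, n1, n2, n3, n4,
        fun h => v1'.1 (congrArg Fin.val h), fun h => v1'.2 (congrArg Fin.val h),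
        fun h => v3'.1 (congrArg Fin.val h), fun h => v3'.2 (congrArg Fin.val h),
        fun h => v2'.1 (congrArg Fin.val h), fun h => v2'.2 (congrArg Fin.val h),
        fun h => v4'.1 (congrArg Fin.val h), fun h => v4'.2 (congrArg Fin.val h)⟩

/-! ### The skeletons as parent lists -/

deriving instance DecidableEq for Sk

instance {m : ℕ} (a b : Sk m) : Decidable ((sk m).Adj a b) := by
  change Decidable (skadj a b)
  unfold skadj
  split <;> infer_instance

/-- Skeletons with one, two and three legs: root `0`, leaf `1`, legs of four vertices. -/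
def skL : ℕ → List ℕ
  | 1 => [0, 0, 0, 2, 3, 4]
  | 2 => [0, 0, 0, 2, 3, 4, 0, 6, 7, 8]
  | 3 => [0, 0, 0, 2, 3, 4, 0, 6, 7, 8, 0, 10, 11, 12]
  | _ => [0]

theorem skL_pos (m : ℕ) : 0 < (skL m).length := by
  unfold skL; split <;> simp

/-- The table of the isomorphism. -/
def skT (m : ℕ) (i : ℕ) : Sk (m + 1) :=
  if i = 0 then .c else if i = 1 then .l else
    .p (Fin.ofNat (m + 1) ((i - 2) / 4)) (Fin.ofNat 4 ((i - 2) % 4))

theorem skT_ok (m : ℕ) (hm : m < 3) : ∀ a b : Fin (skL (m + 1)).length, a < b →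
    ((sk (m + 1)).Adj (skT m a) (skT m b) ↔ (ptree (skL (m + 1))).Adj a b) ∧
      skT m a ≠ skT m b := by
  interval_cases m
  · decide +kernel
  · decide +kernel
  · decide +kernel

theorem rootGood_skL {τ : Type*} {T : SimpleGraph τ} {k m : ℕ} (h1 : 1 ≤ m) (h3 : m ≤ 3)
    (h : RootGood T k (sk m) .c) : RootGood T k (ptree (skL m)) ⟨0, skL_pos m⟩ := by
  obtain ⟨m, rfl⟩ : ∃ m', m = m' + 1 := ⟨m - 1, by omega⟩
  have key := skT_ok m (by omega)
  obtain ⟨φ, hφ⟩ := embed_of (ptree (skL (m + 1))) (sk (m + 1)) (fun i => skT m i)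
    (fun a b hab => (key a b hab).1) (fun a b hab => (key a b hab).2)
  exact h.mono φ (hφ _)

/-- Criterion (4): rooted goodness of the skeleton with one leg. -/
theorem rootGood_C4 {q : List ℕ} (h : crit1B q = true) (hT : (ptree q).IsTree) {k : ℕ}
    (hk : 3 ≤ k) : RootGood (ptree q) k (ptree (skL 1)) ⟨0, skL_pos 1⟩ :=
  rootGood_skL le_rfl (by omega) (rootGood_sk hk (crit1B_spec h hT hk))

end Pool.Agent.SA58
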