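import Pool.Agent.SA58.GadG
import Pool.Agent.SA97.Trees

set_option autoImplicit false

/-! The piece gadget. A piece has a root `b` (adjacent to `x`), a leaf `p` at `b`, a path
`b - e - o - q`; `p`, `e`, `q` have the same class. Vertices of different pieces are adjacent if
their classes are far. The vertices `q` are used only if `fl = true`. -/

namespace Pool.Agent.SA58

open SimpleGraph Pool.Agent.SA33 Pool.Agent.SA97 Pool.Agent.SA32

/-- The roles in a piece. -/
inductive Rl : Type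
  | b | p | e | o | q
  deriving DecidableEq

instance : Fintype Rl := ⟨{.b, .p, .e, .o, .q}, by intro x; cases x <;> decide⟩

/-- The pieces. -/
def Pce (k M : ℕ) : Type :=
  {t : ZMod (2 * k - 1) × ZMod (2 * k - 1) × ZMod (2 * k - 1) × Fin M //
    Far t.1 1 ∧ Far t.1 t.2.1 ∧ Far t.2.1 t.2.2.1}

/-- The vertices of the piece gadget. -/
inductive U (k M : ℕ) : Type
  | x : U k M
  | l (j : Fin (k - 2)) : U k M
  | w (r : Rl) (P : Pce k M) : U k M

variable {k M : ℕ}

/-- The class of the vertex of role `r` in the piece `P`. -/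
def rc (r : Rl) (P : Pce k M) : ZMod (2 * k - 1) :=
  match r with
  | .b => P.1.1
  | .p => P.1.2.1
  | .e => P.1.2.1
  | .q => P.1.2.1
  | .o => P.1.2.2.1

/-- Adjacency in a piece. -/
def inP : Rl → Rl → Bool
  | .b, .p => true
  | .p, .b => true
  | .b, .e => true
  | .e, .b => true
  | .e, .o => true
  | .o, .e => true
  | .o, .q => true
  | .q, .o => true
  | _, _ => false

theorem inP_comm (r r' : Rl) : inP r r' = inP r' r := by revert r r'; decide

theorem inP_self (r : Rl) : inP r r = false := by revert r; decide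

/-- Adjacency of two vertices of pieces. -/
def wadj2 (fl : Bool) (r : Rl) (P : Pce k M) (r' : Rl) (P' : Pce k M) : Prop :=
  (r = .q → fl = true) ∧ (r' = .q → fl = true) ∧
    ((P = P' ∧ inP r r' = true) ∨ (P ≠ P' ∧ Far (rc r P) (rc r' P')))

/-- Adjacency. -/
def uadj (fl : Bool) : U k M → U k M → Prop
  | .x, .l _ => True
  | .l _, .x => True
  | .x, .w r _ => r = .b
  | .w r _, .x => r = .b
  | .l i, .l j => i ≠ j
  | .w r P, .w r' P' => wadj2 fl r P r' P'
  | _, _ => False

/-- The piece gadget. -/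
def gadU (fl : Bool) (k M : ℕ) : SimpleGraph (U k M) where
  Adj := uadj fl
  symm := ⟨by
    rintro (_ | j | ⟨r, P⟩) (_ | j' | ⟨r', P'⟩) h <;> simp only [uadj] at h ⊢
    · exact h
    · exact h.symm
    · exact h
    · obtain ⟨h1, h2, h3⟩ := h
      refine ⟨h2, h1, ?_⟩
      rcases h3 with ⟨h3, h4⟩ | ⟨h3, h4⟩
      · exact Or.inl ⟨h3.symm, by rw [inP_comm]; exact h4⟩
      · exact Or.inr ⟨h3.symm, h4.symm⟩⟩
  loopless := ⟨by
    rintro (_ | j | ⟨r, P⟩) h <;> simp only [uadj] at h
    · exact h rfl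
    · obtain ⟨-, -, ⟨-, h⟩ | ⟨h, -⟩⟩ := h
      · rw [inP_self] at h; exact absurd h (by decide)
      · exact h rfl⟩

/-- The class of a vertex. -/
def ucls : U k M → ZMod (2 * k - 1)
  | .x => 1
  | .l j => ((2 * (j : ℕ) + 3 : ℕ) : ZMod (2 * k - 1))
  | .w r P => rc r P

theorem leaf_far (j : Fin (k - 2)) : Far (1 : ZMod (2 * k - 1)) ((2 * (j : ℕ) + 3 : ℕ)) := by
  have h1 := far_add (1 : ZMod (2 * k - 1)) (d := 2 * (j : ℕ) + 2) (by omega)
    (by have := j.2; omega)
  have h2 : (1 : ZMod (2 * k - 1)) + ((2 * (j : ℕ) + 2 : ℕ) : ZMod (2 * k - 1)) =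
      ((2 * (j : ℕ) + 3 : ℕ) : ZMod (2 * k - 1)) := by
    push_cast; ring
  rwa [h2] at h1

theorem leaf_far2 (i j : Fin (k - 2)) (hij : i < j) :
    Far ((2 * (i : ℕ) + 3 : ℕ) : ZMod (2 * k - 1)) ((2 * (j : ℕ) + 3 : ℕ)) := by
  have hij' : (i : ℕ) < j := hij
  have h1 := far_add ((2 * (i : ℕ) + 3 : ℕ) : ZMod (2 * k - 1))
    (d := 2 * ((j : ℕ) - i)) (by omega) (by have := j.2; omega)
  rw [← Nat.cast_add] at h1
  have h2 : 2 * (i : ℕ) + 3 + 2 * ((j : ℕ) - i) = 2 * (j : ℕ) + 3 := by omega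
  rwa [h2] at h1

theorem inP_far {r r' : Rl} {P : Pce k M} (h : inP r r' = true) : Far (rc r P) (rc r' P) := by
  have h1 := P.2.2.1
  have h2 := P.2.2.2
  cases r <;> cases r' <;> first
    | exact h1
    | exact h1.symm
    | exact h2
    | exact h2.symm
    | exact absurd h (by decide)

theorem uadj_far {fl : Bool} {u w : U k M} (h : (gadU fl k M).Adj u w) :
    Far (ucls u) (ucls w) := by
  rcases u with _ | j | ⟨r, P⟩ <;> rcases w with _ | j' | ⟨r', P'⟩ <;>
    simp only [gadU, uadj] at h <;> simp only [ucls]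
  · exact leaf_far _
  · subst h; exact P'.2.1.symm
  · exact (leaf_far _).symm
  · rcases lt_or_gt_of_ne h with h' | h'
    · exact leaf_far2 _ _ h'
    · exact (leaf_far2 _ _ h').symm
  · subst h; exact P.2.1
  · obtain ⟨-, -, ⟨rfl, h⟩ | ⟨-, h⟩⟩ := h
    · exact inP_far h
    · exact h

theorem gadU_cliqueFree {fl : Bool} (hk : 3 ≤ k) :
    IsEmpty ((⊤ : SimpleGraph (Fin k)) ↪g gadU fl k M) := by
  classical
  have : NeZero (2 * k - 1) := ⟨by omega⟩
  refine ⟨fun f => ?_⟩
  have hf : ∀ i j : Fin k, i ≠ j → Far (ucls (f i)) (ucls (f j)) := by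
    intro i j hij
    exact uadj_far (f.map_adj_iff.2 (by simpa using hij))
  have hinj : Function.Injective (fun i => ucls (f i)) := by
    intro i j hij
    by_contra hne
    exact (hf i j hne).1 hij
  have h1 := far_card (Finset.univ.image (fun i => ucls (f i))) (by
    intro a ha b hb hab
    obtain ⟨i, -, rfl⟩ := Finset.mem_image.1 ha
    obtain ⟨j, -, rfl⟩ := Finset.mem_image.1 hb
    exact hf i j (fun h => hab (by rw [h]))) (by omega)
  rw [Finset.card_image_of_injective _ hinj, Finset.card_univ, Fintype.card_fin] at h1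
  omega

theorem finite_Pce (hk : 3 ≤ k) : Finite (Pce k M) := by
  have : NeZero (2 * k - 1) := ⟨by omega⟩
  exact Subtype.finite

theorem finite_U (hk : 3 ≤ k) : Finite (U k M) := by
  have := finite_Pce (M := M) hk
  refine Finite.of_injective (β := Option (Fin (k - 2) ⊕ (Rl × Pce k M))) (fun w => match w with
    | .x => none
    | .l j => some (Sum.inl j)
    | .w r P => some (Sum.inr (r, P))) ?_
  rintro (_ | j | ⟨r, P⟩) (_ | j' | ⟨r', P'⟩) h <;>
    simp only [Option.some.injEq, Sum.inl.injEq, Sum.inr.injEq, Prod.mk.injEq, reduceCtorEq] at h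
  · rfl
  · subst h; rfl
  · obtain ⟨rfl, rfl⟩ := h; rfl

/-- Far nonadjacent vertices of pieces are in the same piece, and of role different from `e`. -/
theorem coedge {fl : Bool} {r r' : Rl} {P P' : Pce k M} (hr : r = .q → fl = true)
    (hr' : r' = .q → fl = true) (h : ¬ (gadU fl k M).Adj (.w r P) (.w r' P'))
    (hfar : Far (rc r P) (rc r' P')) : P = P' ∧ r ≠ .e ∧ r' ≠ .e := by
  have hPP : P = P' := by
    by_contra hne
    exact h ⟨hr, hr', Or.inr ⟨hne, hfar⟩⟩
  subst hPP
  have hin : inP r r' ≠ true := fun h' => h ⟨hr, hr', Or.inl ⟨rfl, h'⟩⟩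
  refine ⟨rfl, ?_, ?_⟩
  · rintro rfl
    cases r' <;> first
      | exact hin rfl
      | exact hfar.1 rfl
  · rintro rfl
    cases r <;> first
      | exact hin rfl
      | exact hfar.1 rfl

/-! ### Rooted goodness -/

theorem exists_notMem_U {fl : Bool} {Q : Set (U k M)} (hk : 3 ≤ k) (hx : .x ∈ Q)
    (hQ : (gadU fl k M).CliqueFreeOn Q (k - 1)) (g : Fin (k - 2) → U k M)
    (hg : ∀ i j, i ≠ j → (gadU fl k M).Adj (g i) (g j))
    (hg' : ∀ i, (gadU fl k M).Adj .x (g i)) : ∃ i, g i ∉ Q := by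
  classical
  by_contra hcon
  push Not at hcon
  have hinj : Function.Injective g := by
    intro i j hij
    by_contra hne
    exact (hg i j hne).ne hij
  refine hQ (t := insert .x (Finset.univ.image g)) ?_ ⟨?_, ?_⟩
  · intro u hu
    rw [Finset.coe_insert] at hu
    rcases hu with rfl | hu
    · exact hx
    · obtain ⟨i, -, rfl⟩ := Finset.mem_image.1 (Finset.mem_coe.1 hu)
      exact hcon i
  · rw [Finset.coe_insert]
    intro u hu w hw huw
    rcases hu with rfl | hu <;> rcases hw with rfl | hw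
    · exact absurd rfl huw
    · obtain ⟨i, -, rfl⟩ := Finset.mem_image.1 (Finset.mem_coe.1 hw)
      exact hg' i
    · obtain ⟨i, -, rfl⟩ := Finset.mem_image.1 (Finset.mem_coe.1 hu)
      exact (hg' i).symm
    · obtain ⟨i, -, rfl⟩ := Finset.mem_image.1 (Finset.mem_coe.1 hu)
      obtain ⟨j, -, rfl⟩ := Finset.mem_image.1 (Finset.mem_coe.1 hw)
      exact hg i j (fun h => huw (by rw [h]))
  · rw [Finset.card_insert_of_notMem, Finset.card_image_of_injective _ hinj, Finset.card_univ,
      Fintype.card_fin]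
    · omega
    · intro h
      obtain ⟨i, -, hi⟩ := Finset.mem_image.1 h
      exact (hg' i).ne hi.symm

/-- The pieces with a vertex of class `c` and role in `S` in `Q`. -/
def hit (S : Set Rl) (Q : Set (U k M)) (c : ZMod (2 * k - 1)) : Set (Pce k M) :=
  {P | ∃ r ∈ S, rc r P = c ∧ .w r P ∈ Q}

/-- Distinct representatives of large sets. -/
theorem exists_sdr {ι α : Type*} [Finite α] (s : Finset ι) (hs : s.Nonempty) (H : ι → Set α)
    (h : ∀ i ∈ s, s.card ≤ (H i).ncard) :
    ∃ g : ι → α, (∀ i ∈ s, g i ∈ H i) ∧ ∀ i ∈ s, ∀ j ∈ s, i ≠ j → g i ≠ g j := by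
  classical
  have key : ∀ t : Finset ι, t ⊆ s → ∃ g : ι → α, (∀ i ∈ t, g i ∈ H i) ∧
      ∀ i ∈ t, ∀ j ∈ t, i ≠ j → g i ≠ g j := by
    intro t
    induction t using Finset.induction_on with
    | empty =>
      intro _
      obtain ⟨i, hi⟩ := hs
      have h1 := h i hi
      have h2 : 0 < s.card := Finset.card_pos.2 ⟨i, hi⟩
      have h3 : (H i).Nonempty := by
        rw [← Set.ncard_pos (Set.toFinite _)]; omega
      obtain ⟨a, -⟩ := h3
      exact ⟨fun _ => a, by simp, by simp⟩
    | insert a t ha ih =>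
      intro hts
      obtain ⟨g, hg1, hg2⟩ := ih ((Finset.subset_insert _ _).trans hts)
      have has : a ∈ s := hts (Finset.mem_insert_self _ _)
      have hcard : (t.image g).card < (H a).ncard := by
        have h1 : (insert a t).card ≤ s.card := Finset.card_le_card hts
        rw [Finset.card_insert_of_notMem ha] at h1
        have h2 := Finset.card_image_le (s := t) (f := g)
        have h3 := h a has
        omega
      obtain ⟨y, hy1, hy2⟩ : ∃ y ∈ H a, y ∉ t.image g := by
        by_contra hcon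
        push Not at hcon
        have h1 : H a ⊆ ((t.image g : Finset α) : Set α) := fun y hy => hcon y hy
        have h2 := Set.ncard_le_ncard h1 (Set.toFinite _)
        rw [Set.ncard_coe_finset] at h2
        omega
      refine ⟨Function.update g a y, ?_, ?_⟩
      · intro i hi
        by_cases hia : i = a
        · subst hia; rw [Function.update_self]; exact hy1
        · rw [Function.update_of_ne hia]
          exact hg1 i (Finset.mem_of_mem_insert_of_ne hi hia)
      · intro i hi j hj hij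
        by_cases hia : i = a <;> by_cases hja : j = a
        · exact absurd (hia.trans hja.symm) hij
        · subst hia
          rw [Function.update_self, Function.update_of_ne hja]
          intro h'
          exact hy2 (Finset.mem_image.2 ⟨j, Finset.mem_of_mem_insert_of_ne hj hja, h'.symm⟩)
        · subst hja
          rw [Function.update_self, Function.update_of_ne hia]
          intro h'
          exact hy2 (Finset.mem_image.2 ⟨i, Finset.mem_of_mem_insert_of_ne hi hia, h'⟩)
        · rw [Function.update_of_ne hia, Function.update_of_ne hja]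
          exact hg2 i (Finset.mem_of_mem_insert_of_ne hi hia) j
            (Finset.mem_of_mem_insert_of_ne hj hja) hij
  exact key s (Finset.Subset.refl _)

/-- The admissible roles other than `b`. -/
def VR (fl : Bool) : Set Rl := {r | r ≠ .b ∧ (r = .q → fl = true)}

theorem no_clique_V {fl : Bool} {Q : Set (U k M)} (hk : 3 ≤ k)
    (hQ : (gadU fl k M).CliqueFreeOn Q (k - 1)) (s : Finset (ZMod (2 * k - 1)))
    (hs : ∀ c ∈ s, k - 1 ≤ (hit (VR fl) Q c).ncard)
    (hfar : ∀ c ∈ s, ∀ c' ∈ s, c ≠ c' → Far c c') : s.card < k - 1 := by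
  classical
  have := finite_Pce (M := M) hk
  by_contra hcard
  push Not at hcard
  obtain ⟨s', hs', hs'c⟩ := Finset.exists_subset_card_eq hcard
  obtain ⟨g, hg1, hg2⟩ := exists_sdr s' (Finset.card_pos.1 (by omega)) (fun c => hit (VR fl) Q c)
    (fun c hc => by rw [hs'c]; exact hs c (hs' hc))
  have hr : ∀ c, ∃ r, c ∈ s' → r ∈ VR fl ∧ rc r (g c) = c ∧ (U.w r (g c)) ∈ Q := by
    intro c
    by_cases hc : c ∈ s'
    · obtain ⟨r, hr, h⟩ := hg1 c hc
      exact ⟨r, fun _ => ⟨hr, h⟩⟩
    · exact ⟨.b, fun h => absurd h hc⟩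
  choose r hr using hr
  refine hQ (t := s'.image (fun c => U.w (r c) (g c))) ?_ ⟨?_, ?_⟩
  · intro u hu
    obtain ⟨c, hc, rfl⟩ := Finset.mem_image.1 (Finset.mem_coe.1 hu)
    exact (hr c hc).2.2
  · intro u hu w hw huw
    obtain ⟨c, hc, rfl⟩ := Finset.mem_image.1 (Finset.mem_coe.1 hu)
    obtain ⟨c', hc', rfl⟩ := Finset.mem_image.1 (Finset.mem_coe.1 hw)
    have hne : c ≠ c' := fun h => huw (by rw [h])
    refine ⟨(hr c hc).1.2, (hr c' hc').1.2, Or.inr ⟨hg2 c hc c' hc' hne, ?_⟩⟩
    rw [(hr c hc).2.1, (hr c' hc').2.1]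
    exact hfar c (hs' hc) c' (hs' hc') hne
  · rw [Finset.card_image_of_injOn, hs'c]
    intro c hc c' hc' h
    by_contra hne
    exact hg2 c hc c' hc' hne (U.w.inj h).2

theorem exists_V_U {fl : Bool} {Q : Set (U k M)} (hk : 3 ≤ k)
    (hQ : (gadU fl k M).CliqueFreeOn Q (k - 1)) : ∃ a b : ZMod (2 * k - 1), Far a b ∧
      (hit (VR fl) Q a).ncard < k - 1 ∧ (hit (VR fl) Q b).ncard < k - 1 := by
  classical
  let F : Set (ZMod (2 * k - 1)) := {c | k - 1 ≤ (hit (VR fl) Q c).ncard}
  by_cases hF : F.Nonempty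
  · obtain ⟨i, -, hi, j, hj, -, hij⟩ := exists_path hk F hF
      (fun s hs hfar => no_clique_V hk hQ s hs hfar)
    exact ⟨i + 1, j, hij, not_le.1 hi, not_le.1 hj⟩
  · have h2 : ∀ c, (hit (VR fl) Q c).ncard < k - 1 := fun c => by
      by_contra h
      exact hF ⟨c, not_lt.1 h⟩
    have h3 := far_add (0 : ZMod (2 * k - 1)) (d := 2) le_rfl (by omega)
    exact ⟨_, _, h3, h2 _, h2 _⟩

theorem exists_D_U {fl : Bool} {Q : Set (U k M)} (hk : 3 ≤ k) (hx : .x ∈ Q)
    (hQ : (gadU fl k M).CliqueFreeOn Q (k - 1)) (e : ℕ) (he : 3 ≤ e) (he' : e ≤ 4) :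
    ∃ (i : ℕ), i < k - 2 ∧ Far ((e + 2 * i : ℕ) : ZMod (2 * k - 1)) 1 ∧
      (hit {Rl.b} Q ((e + 2 * i : ℕ) : ZMod (2 * k - 1))).ncard < k - 1 := by
  classical
  have := finite_Pce (M := M) hk
  have hfar : ∀ i : Fin (k - 2), Far ((e + 2 * (i : ℕ) : ℕ) : ZMod (2 * k - 1)) 1 := by
    intro i
    have h1 := far_add (1 : ZMod (2 * k - 1)) (d := e - 1 + 2 * (i : ℕ)) (by omega)
      (by have := i.2; omega)
    have h2 : (1 : ZMod (2 * k - 1)) = ((1 : ℕ) : ZMod (2 * k - 1)) := by simp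
    rw [h2, ← Nat.cast_add] at h1
    have h3 : 1 + (e - 1 + 2 * (i : ℕ)) = e + 2 * (i : ℕ) := by omega
    rw [h3, ← h2] at h1
    exact h1.symm
  have hfar2 : ∀ i j : Fin (k - 2), i < j → Far ((e + 2 * (i : ℕ) : ℕ) : ZMod (2 * k - 1))
      ((e + 2 * (j : ℕ) : ℕ) : ZMod (2 * k - 1)) := by
    intro i j hij
    have hij' : (i : ℕ) < j := hij
    have h1 := far_add ((e + 2 * (i : ℕ) : ℕ) : ZMod (2 * k - 1))
      (d := 2 * ((j : ℕ) - i)) (by omega) (by have := j.2; omega)
    rw [← Nat.cast_add] at h1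
    have h2 : e + 2 * (i : ℕ) + 2 * ((j : ℕ) - i) = e + 2 * (j : ℕ) := by omega
    rwa [h2] at h1
  by_contra hcon
  push Not at hcon
  have hbig : ∀ i : Fin (k - 2), k - 1 ≤
      (hit {Rl.b} Q ((e + 2 * (i : ℕ) : ℕ) : ZMod (2 * k - 1))).ncard :=
    fun i => hcon i i.2 (hfar i)
  obtain ⟨g, hg1, hg2⟩ := exists_sdr (Finset.univ : Finset (Fin (k - 2)))
    ⟨⟨0, by omega⟩, Finset.mem_univ _⟩
    (fun i => hit {Rl.b} Q ((e + 2 * (i : ℕ) : ℕ) : ZMod (2 * k - 1)))
    (fun i _ => by
      rw [Finset.card_univ, Fintype.card_fin]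
      have := hbig i
      omega)
  have hg3 : ∀ i, rc .b (g i) = ((e + 2 * (i : ℕ) : ℕ) : ZMod (2 * k - 1)) ∧ U.w .b (g i) ∈ Q := by
    intro i
    obtain ⟨r, hr, h⟩ := hg1 i (Finset.mem_univ _)
    rw [Set.mem_singleton_iff] at hr
    subst hr
    exact h
  obtain ⟨i, hi⟩ := exists_notMem_U hk hx hQ (fun i => U.w .b (g i)) (by
    intro i j hij
    refine ⟨fun h => absurd h (by decide), fun h => absurd h (by decide),
      Or.inr ⟨hg2 i (Finset.mem_univ _) j (Finset.mem_univ _) hij, ?_⟩⟩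
    rw [(hg3 i).1, (hg3 j).1]
    rcases lt_or_gt_of_ne hij with h | h
    · exact hfar2 _ _ h
    · exact (hfar2 _ _ h).symm) (fun i => rfl)
  exact hi (hg3 i).2

/-- A piece outside `Q`. -/
theorem exists_piece {fl : Bool} {Q : Set (U k (3 * k))} (hk : 3 ≤ k) (hx : .x ∈ Q)
    (hQ : (gadU fl k (3 * k)).CliqueFreeOn Q (k - 1)) :
    ∃ P : Pce k (3 * k), ∀ r, (r = .q → fl = true) → U.w r P ∉ Q := by
  classical
  have := finite_Pce (M := 3 * k) hk
  obtain ⟨i1, hi1, h1, hQ1⟩ := exists_D_U hk hx hQ 3 le_rfl (by omega)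
  obtain ⟨i2, hi2, h2, hQ2⟩ := exists_D_U hk hx hQ 4 (by omega) le_rfl
  obtain ⟨a, b, hab, ha, hb⟩ := exists_V_U hk hQ
  have hne : ((3 + 2 * i1 : ℕ) : ZMod (2 * k - 1)) ≠ ((4 + 2 * i2 : ℕ) : ZMod (2 * k - 1)) := by
    intro h
    rw [ZMod.natCast_eq_natCast_iff', Nat.mod_eq_of_lt (by omega), Nat.mod_eq_of_lt (by omega)] at h
    omega
  have hex : ∃ m c d : ZMod (2 * k - 1), Far m 1 ∧ Far m c ∧ Far c d ∧
      (hit {Rl.b} Q m).ncard < k - 1 ∧ (hit (VR fl) Q c).ncard < k - 1 ∧
      (hit (VR fl) Q d).ncard < k - 1 := by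
    by_cases c1 : Far a ((3 + 2 * i1 : ℕ) : ZMod (2 * k - 1))
    · exact ⟨_, a, b, h1, c1.symm, hab, hQ1, ha, hb⟩
    by_cases c2 : Far b ((3 + 2 * i1 : ℕ) : ZMod (2 * k - 1))
    · exact ⟨_, b, a, h1, c2.symm, hab.symm, hQ1, hb, ha⟩
    by_cases c3 : Far a ((4 + 2 * i2 : ℕ) : ZMod (2 * k - 1))
    · exact ⟨_, a, b, h2, c3.symm, hab, hQ2, ha, hb⟩
    by_cases c4 : Far b ((4 + 2 * i2 : ℕ) : ZMod (2 * k - 1))
    · exact ⟨_, b, a, h2, c4.symm, hab.symm, hQ2, hb, ha⟩
    exact absurd (near_unique (by omega) hab c1 c2 c3 c4) hne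
  obtain ⟨m, c, d, hm, hmc, hcd, e1, e2, e3⟩ := hex
  let pc : Fin (3 * k) → Pce k (3 * k) := fun s => ⟨(m, c, d, s), hm, hmc, hcd⟩
  have hpc : Function.Injective pc := by
    intro s s' h
    have := congrArg (fun P : Pce k (3 * k) => P.1.2.2.2) h
    exact this
  have hcount : ∀ H : Set (Pce k (3 * k)), H.ncard < k - 1 →
      (Finset.univ.filter (fun s => pc s ∈ H)).card < k - 1 := by
    intro H hH
    refine lt_of_le_of_lt ?_ hH
    rw [← Set.ncard_coe_finset, ← Set.ncard_image_of_injective _ hpc]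
    apply Set.ncard_le_ncard _ (Set.toFinite _)
    rintro _ ⟨s, hs, rfl⟩
    simpa using hs
  have k1 := hcount _ e1
  have k2 := hcount _ e2
  have k3 := hcount _ e3
  obtain ⟨s, hs1, hs2, hs3⟩ : ∃ s, pc s ∉ hit {Rl.b} Q m ∧ pc s ∉ hit (VR fl) Q c ∧
      pc s ∉ hit (VR fl) Q d := by
    by_contra hcon
    push Not at hcon
    have hcov : (Finset.univ : Finset (Fin (3 * k))) ⊆
        (Finset.univ.filter (fun s => pc s ∈ hit {Rl.b} Q m) ∪
          Finset.univ.filter (fun s => pc s ∈ hit (VR fl) Q c)) ∪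
          Finset.univ.filter (fun s => pc s ∈ hit (VR fl) Q d) := by
      intro s _
      simp only [Finset.mem_union, Finset.mem_filter, Finset.mem_univ, true_and]
      by_cases h3 : pc s ∈ hit {Rl.b} Q m
      · exact Or.inl (Or.inl h3)
      · by_cases h4 : pc s ∈ hit (VR fl) Q c
        · exact Or.inl (Or.inr h4)
        · exact Or.inr (hcon s h3 h4)
    have h3 := Finset.card_le_card hcov
    have h4 := Finset.card_union_le (Finset.univ.filter (fun s => pc s ∈ hit {Rl.b} Q m) ∪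
      Finset.univ.filter (fun s => pc s ∈ hit (VR fl) Q c))
      (Finset.univ.filter (fun s => pc s ∈ hit (VR fl) Q d))
    have h5 := Finset.card_union_le (Finset.univ.filter (fun s => pc s ∈ hit {Rl.b} Q m))
      (Finset.univ.filter (fun s => pc s ∈ hit (VR fl) Q c))
    rw [Finset.card_univ, Fintype.card_fin] at h3
    omega
  refine ⟨pc s, ?_⟩
  intro r hr hmem
  cases r
  · exact hs1 ⟨.b, rfl, rfl, hmem⟩
  · exact hs2 ⟨.p, ⟨by decide, hr⟩, rfl, hmem⟩
  · exact hs2 ⟨.e, ⟨by decide, hr⟩, rfl, hmem⟩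
  · exact hs3 ⟨.o, ⟨by decide, hr⟩, rfl, hmem⟩
  · exact hs2 ⟨.q, ⟨by decide, hr⟩, rfl, hmem⟩

/-- The rooted tree: root `0`, leaf `1`, child `2` with a leaf `3` and a path `4 - 5 - 6`. -/
abbrev S7 : SimpleGraph (Fin 7) := tree 7 [0, 0, 0, 2, 2, 4, 5]

/-- The rooted tree: root `0`, leaf `1`, child `2` with a leaf `3` and a path `4 - 5`. -/
abbrev S6 : SimpleGraph (Fin 6) := tree 6 [0, 0, 0, 2, 2, 4]

theorem rooted7 (hk : 3 ≤ k) (Q : Set (U k (3 * k))) (hx : .x ∈ Q)
    (hQ : (gadU true k (3 * k)).CliqueFreeOn Q (k - 1)) :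
    ∃ φ : S7 ↪g gadU true k (3 * k), φ 0 = .x ∧ ∀ y, y ≠ 0 → φ y ∉ Q := by
  obtain ⟨P, hP⟩ := exists_piece hk hx hQ
  obtain ⟨j, hj⟩ := exists_notMem_U hk hx hQ (fun j => U.l j) (fun i j h => h) (fun i => trivial)
  obtain ⟨φ, hφ⟩ := embed_of S7 (gadU true k (3 * k))
    ![.x, .l j, .w .b P, .w .p P, .w .e P, .w .o P, .w .q P] (by
      intro a b hab
      fin_cases a <;> fin_cases b <;> first
        | exact absurd hab (by decide)
        | exact iff_of_true trivial (by decide)
        | exact iff_of_true rfl (by decide)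
        | exact iff_of_true ⟨fun _ => rfl, fun _ => rfl, Or.inl ⟨rfl, rfl⟩⟩ (by decide)
        | exact iff_of_false (fun h => nomatch h) (by decide)
        | exact iff_of_false (fun h => absurd h id) (by decide)
        | exact iff_of_false (fun h => h.2.2.elim (fun h' => absurd h'.2 (by decide))
            (fun h' => h'.1 rfl)) (by decide)) (by
      intro a b hab
      fin_cases a <;> fin_cases b <;> first
        | exact absurd hab (by decide)
        | exact fun h => nomatch h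
        | (intro h; exact absurd (U.w.inj h).1 (by decide)))
  refine ⟨φ, hφ 0, ?_⟩
  intro y hy
  rw [hφ]
  fin_cases y
  · exact absurd rfl hy
  · exact hj
  · exact hP _ (fun _ => rfl)
  · exact hP _ (fun _ => rfl)
  · exact hP _ (fun _ => rfl)
  · exact hP _ (fun _ => rfl)
  · exact hP _ (fun _ => rfl)

theorem rooted6 (hk : 3 ≤ k) (Q : Set (U k (3 * k))) (hx : .x ∈ Q)
    (hQ : (gadU false k (3 * k)).CliqueFreeOn Q (k - 1)) :
    ∃ φ : S6 ↪g gadU false k (3 * k), φ 0 = .x ∧ ∀ y, y ≠ 0 → φ y ∉ Q := by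
  obtain ⟨P, hP⟩ := exists_piece hk hx hQ
  obtain ⟨j, hj⟩ := exists_notMem_U hk hx hQ (fun j => U.l j) (fun i j h => h) (fun i => trivial)
  obtain ⟨φ, hφ⟩ := embed_of S6 (gadU false k (3 * k))
    ![.x, .l j, .w .b P, .w .p P, .w .e P, .w .o P] (by
      intro a b hab
      fin_cases a <;> fin_cases b <;> first
        | exact absurd hab (by decide)
        | exact iff_of_true trivial (by decide)
        | exact iff_of_true rfl (by decide)
        | exact iff_of_true ⟨fun h => absurd h (by decide), fun h => absurd h (by decide),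
            Or.inl ⟨rfl, rfl⟩⟩ (by decide)
        | exact iff_of_false (fun h => nomatch h) (by decide)
        | exact iff_of_false (fun h => absurd h id) (by decide)
        | exact iff_of_false (fun h => h.2.2.elim (fun h' => absurd h'.2 (by decide))
            (fun h' => h'.1 rfl)) (by decide)) (by
      intro a b hab
      fin_cases a <;> fin_cases b <;> first
        | exact absurd hab (by decide)
        | exact fun h => nomatch h
        | (intro h; exact absurd (U.w.inj h).1 (by decide)))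
  refine ⟨φ, hφ 0, ?_⟩
  intro y hy
  rw [hφ]
  fin_cases y
  · exact absurd rfl hy
  · exact hj
  · exact hP _ (fun h => absurd h (by decide))
  · exact hP _ (fun h => absurd h (by decide))
  · exact hP _ (fun h => absurd h (by decide))
  · exact hP _ (fun h => absurd h (by decide))

end Pool.Agent.SA58
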