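import Pool.Agent.SA97.Free

set_option autoImplicit false

/-! Engine step: the co-edges between far classes join vertices of the same label, and every label
is used at most `s` times. In the rooted version (`rt = true`) the co-edges at the root are
ignored and the children of the root are of pairwise near classes. -/

namespace Pool.Agent.SA58

open SimpleGraph Pool.Agent.SA33 Pool.Agent.SA97 Eng

/-- At most `s` bits. -/
noncomputable def ple (s : ℕ) : ℕ → Bool :=
  Nat.rec (motive := fun _ => ℕ → Bool) (fun M => Nat.beq M 0)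
    (fun _ ih M => force (Nat.land M (Nat.sub M 1)) ih) s

theorem ple_succ (s M : ℕ) : ple (s + 1) M = ple s (Nat.land M (Nat.sub M 1)) := by
  have h : ple (s + 1) M = force (Nat.land M (Nat.sub M 1)) (ple s) := rfl
  rw [h, force_eq]

theorem strip_bit (M : ℕ) (hM : M ≠ 0) : ∃ i, M.testBit i = true ∧
    ∀ u, (Nat.land M (Nat.sub M 1)).testBit u = true → M.testBit u = true ∧ u ≠ i := by
  induction M using Nat.strong_induction_on with
  | _ M ih =>
    have hand : ∀ u, (Nat.land M (Nat.sub M 1)).testBit u = (M.testBit u && (M - 1).testBit u) :=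
      fun u => Nat.testBit_and M (M - 1) u
    by_cases hodd : M.testBit 0 = true
    · refine ⟨0, hodd, ?_⟩
      intro u hu
      rw [hand, Bool.and_eq_true] at hu
      refine ⟨hu.1, ?_⟩
      rintro rfl
      rw [Nat.testBit_zero] at hodd
      have h2 := hu.2
      rw [Nat.testBit_zero] at h2
      simp only [decide_eq_true_eq] at hodd h2
      omega
    · have heven : M % 2 = 0 := by
        rw [Nat.testBit_zero] at hodd
        simp only [decide_eq_true_eq] at hodd
        omega
      obtain ⟨i, h1, h2⟩ := ih (M / 2) (by omega) (by omega)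
      refine ⟨i + 1, by rw [Nat.testBit_succ]; exact h1, ?_⟩
      intro u hu
      have hu' := hu
      rw [hand, Bool.and_eq_true] at hu'
      refine ⟨hu'.1, ?_⟩
      rintro rfl
      have h3 : (Nat.land (M / 2) (Nat.sub (M / 2) 1)).testBit i = true := by
        have e1 : (Nat.land (M / 2) (Nat.sub (M / 2) 1)).testBit i =
          ((M / 2).testBit i && (M / 2 - 1).testBit i) := Nat.testBit_and _ _ i
        rw [e1, Bool.and_eq_true]
        have e2 := hu'.2
        rw [Nat.testBit_succ] at e2
        have e3 : (M - 1) / 2 = M / 2 - 1 := by omega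
        rw [e3] at e2
        exact ⟨h1, e2⟩
      exact (h2 i h3).2 rfl

theorem ple_ok (s : ℕ) : ∀ M : ℕ, (∀ F : Finset ℕ, (∀ u ∈ F, M.testBit u = true) → F.card ≤ s) →
    ple s M = true := by
  induction s with
  | zero =>
    intro M h
    have h0 : M = 0 := by
      by_contra hne
      obtain ⟨i, hi⟩ := Nat.exists_testBit_of_ne_zero hne
      have := h {i} (by simpa using hi)
      simp at this
    subst h0
    rfl
  | succ s ih =>
    intro M h
    rw [ple_succ]
    apply ih
    intro F hF
    by_cases hM : M = 0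
    · subst hM
      have : F = ∅ := by
        rw [Finset.eq_empty_iff_forall_notMem]
        intro u hu
        have h1 := hF u hu
        have h2 : Nat.land 0 (Nat.sub 0 1) = 0 := rfl
        rw [h2, Nat.zero_testBit] at h1
        exact absurd h1 (by decide)
      rw [this]; simp
    · obtain ⟨i, h1, h2⟩ := strip_bit M hM
      have h3 : i ∉ F := fun hi => (h2 i (hF i hi)).2 rfl
      have h4 := h (insert i F) (by
        intro u hu
        rw [Finset.mem_insert] at hu
        rcases hu with rfl | hu
        · exact h1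
        · exact (h2 u (hF u hu)).1)
      rw [Finset.card_insert_of_notMem h3] at h4
      omega

/-- merge the components meeting `X`, continuation style -/
noncomputable def mergeC (X : ℕ) (l : List ℕ) :
    ℕ → List ℕ → (ℕ → List ℕ → Option (List ℕ)) → Option (List ℕ) :=
  List.rec (motive := fun _ => ℕ → List ℕ → (ℕ → List ℕ → Option (List ℕ)) → Option (List ℕ))
    (fun M rest k => k M rest)
    (fun c _ ih M rest k => cond (Nat.beq (Nat.land c X) 0) (ih M (c :: rest) k)
      (force (Nat.lor c M) (fun M' => ih M' rest k))) l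

/-- the step -/
noncomputable def stepC (s : ℕ) (rt : Bool) (v bp X _S : ℕ) (_R : List Cl) (a : List ℕ) :
    Option (List ℕ) :=
  cond (cond rt (Nat.beq bp 1) false)
    (cond (Nat.beq X 0) (some (Nat.pow 2 v :: a)) none)
    (mergeC X a (Nat.pow 2 v) [] (fun M rest => cond (ple s M) (some (M :: rest)) none))

section
variable {D : Type*} {near : D → D → Prop} {cls : ℕ → D} {par : ℕ → ℕ} {n : ℕ} {A : Type*}
  {lab : ℕ → A} {P : ℕ → Prop}

/-- a good component -/
def CpOK (lab : ℕ → A) (P : ℕ → Prop) (v : ℕ) (c : ℕ) : Prop :=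
  ∃ x, ∀ u, c.testBit u = true → u < v ∧ P u ∧ lab u = x

theorem mergeC_ok {v : ℕ} {X : ℕ} {k : ℕ → List ℕ → Option (List ℕ)}
    (hX : ∀ u, P u → X.testBit u = true → lab u = lab v) {Q : List ℕ → Prop}
    (hk : ∀ M rest, (∀ u, M.testBit u = true → u < v + 1 ∧ P u ∧ lab u = lab v) →
      (∀ c ∈ rest, CpOK lab P (v + 1) c) → ∃ a', k M rest = some a' ∧ Q a') :
    ∀ (l : List ℕ) (M : ℕ) (rest : List ℕ), (∀ c ∈ l, CpOK lab P v c) →
      (∀ u, M.testBit u = true → u < v + 1 ∧ P u ∧ lab u = lab v) →
      (∀ c ∈ rest, CpOK lab P (v + 1) c) →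
      ∃ a', mergeC X l M rest k = some a' ∧ Q a' := by
  intro l
  induction l with
  | nil => intro M rest _ hM hr; exact hk M rest hM hr
  | cons c l ih =>
    intro M rest hl hM hr
    have h : mergeC X (c :: l) M rest k = cond (Nat.beq (Nat.land c X) 0)
      (mergeC X l M (c :: rest) k)
      (force (Nat.lor c M) (fun M' => mergeC X l M' rest k)) := rfl
    rw [h, beq_zero, force_eq]
    have hc : CpOK lab P v c := hl c List.mem_cons_self
    have hl' : ∀ c ∈ l, CpOK lab P v c := fun c' hc' => hl c' (List.mem_cons_of_mem _ hc')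
    by_cases h0 : Nat.land c X = 0
    · rw [decide_eq_true h0, cond_true]
      refine ih M (c :: rest) hl' hM ?_
      intro c' hc'
      rw [List.mem_cons] at hc'
      rcases hc' with rfl | hc'
      · obtain ⟨x, hx⟩ := hc
        exact ⟨x, fun u hu => ⟨by have := (hx u hu).1; omega, (hx u hu).2⟩⟩
      · exact hr c' hc'
    · rw [decide_eq_false h0, cond_false]
      obtain ⟨x, hx⟩ := hc
      have hxv : x = lab v := by
        rw [land_eq_zero] at h0
        push Not at h0
        obtain ⟨u, h3, h4⟩ := h0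
        rw [← (hx u h3).2.2, hX u (hx u h3).2.1 h4]
      subst hxv
      refine ih _ rest hl' ?_ hr
      intro u hu
      rw [testBit_lor, Bool.or_eq_true] at hu
      rcases hu with hu | hu
      · exact ⟨by have := (hx u hu).1; omega, (hx u hu).2⟩
      · exact hM u hu

theorem stepC_ok (hN : Near near) {s : ℕ} {rt : Bool}
    (hP : ∀ v, 1 ≤ v → P v)
    (hlab : ∀ u v, u < n → v < n → P u → P v → XP near cls par u v → lab u = lab v)
    (hs : ∀ x, ∀ F : Finset ℕ, (∀ u ∈ F, u < n ∧ P u ∧ lab u = x) → F.card ≤ s)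
    (hrt : rt = true → ∀ v, 1 ≤ v → v < n → par v = 0 → ∀ u, u < v → u ≠ 0 →
      near (cls u) (cls v)) :
    StepOK near cls par n (stepC s rt) (fun v a => ∀ c ∈ a, CpOK lab P v c) := by
  intro v hv1 hvn ds R a X S hI hV hX hS
  have hXl : ∀ u, P u → X.testBit u = true → lab u = lab v := by
    intro u hPu hu
    obtain ⟨h4, h5, h6⟩ := (hX u).1 hu
    exact hlab u v (by omega) hvn hPu (hP v hv1) ⟨h6, fun _ => h5, fun h => by omega⟩
  have hMv : ∀ u, (Nat.pow 2 v).testBit u = true → u < v + 1 ∧ P u ∧ lab u = lab v := by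
    intro u hu
    change (2 ^ v).testBit u = true at hu
    rw [testBit_pow, decide_eq_true_eq] at hu
    subst hu
    exact ⟨by omega, hP v hv1, rfl⟩
  have hold : ∀ c ∈ a, CpOK lab P (v + 1) c := by
    intro c hc
    obtain ⟨x, hx⟩ := hI c hc
    exact ⟨x, fun u hu => ⟨by have := (hx u hu).1; omega, (hx u hu).2⟩⟩
  unfold stepC
  by_cases hb : (cond rt (Nat.beq (2 ^ par v) 1) false) = true
  · rw [hb, cond_true]
    have hrt1 : rt = true := by
      cases rt
      · exact absurd hb (by simp)
      · rfl
    subst hrt1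
    rw [cond_true] at hb
    have hp0 : par v = 0 := by
      have h1 := Nat.eq_of_beq_eq_true hb
      by_contra hne
      have h2 := Nat.one_lt_two_pow hne
      omega
    have hX0 : X = 0 := by
      by_contra hne
      obtain ⟨u, hu⟩ := Nat.exists_testBit_of_ne_zero hne
      obtain ⟨h4, h5, h6⟩ := (hX u).1 hu
      exact h6 (hrt rfl v hv1 hvn hp0 u h4 (by rw [← hp0]; exact h5))
    rw [hX0]
    refine ⟨_, rfl, ?_⟩
    intro c hc
    rw [List.mem_cons] at hc
    rcases hc with rfl | hc
    · exact ⟨lab v, hMv⟩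
    · exact hold c hc
  · rw [Bool.not_eq_true] at hb
    rw [hb, cond_false]
    refine mergeC_ok (lab := lab) (P := P) hXl (Q := fun a => ∀ c ∈ a, CpOK lab P (v + 1) c)
      ?_ a (Nat.pow 2 v) [] hI hMv (by simp)
    intro M rest hM hr
    have e1 : ple s M = true := by
      apply ple_ok
      intro F hF
      refine hs (lab v) F ?_
      intro u hu
      obtain ⟨h1, h2, h3⟩ := hM u (hF u hu)
      exact ⟨by omega, h2, h3⟩
    rw [e1, cond_true]
    refine ⟨_, rfl, ?_⟩
    intro c hc
    rw [List.mem_cons] at hc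
    rcases hc with rfl | hc
    · exact ⟨lab v, hM⟩
    · exact hr c hc

/-- The engine applied to a tree with classes and labels, unrooted version. -/
theorem free_unrooted {k : ℕ} (hk : 3 ≤ k) {n s : ℕ} {p : List ℕ} (hlen : p.length = n)
    (hn : 1 ≤ n) (hpar : ∀ v, 1 ≤ v → v < n → p.getD v 0 < v)
    (hrun : run (stepC s false) p.tail [1] = true) (c : Fin n → ZMod (2 * k - 1))
    (lb : Fin n → A)
    (h1 : ∀ u v, (tree n p).Adj u v → Far (c u) (c v))
    (h2 : ∀ u v, Far (c u) (c v) → ¬ (tree n p).Adj u v → lb u = lb v)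
    (h3 : ∀ x, ∀ F : Finset (Fin n), (∀ u ∈ F, lb u = x) → F.card ≤ s) : False := by
  classical
  have hN : Near (fun x y : ZMod (2 * k - 1) => ¬Far x y) := near_far (by omega)
  have h4 := engine_tree hN hlen hn hpar (c := c) 0 (fun u v h h' => h' (h1 u v h))
    (stepC_ok (s := s) (rt := false) (P := fun _ => True)
      (lab := fun i => if h : i < n then lb ⟨i, h⟩ else lb ⟨0, by omega⟩) hN
      (fun _ _ => trivial) (by
      intro u v hu hv _ _ h
      obtain ⟨h6, h7⟩ := xp_iff hu hv hN h
      simp only [dif_pos hu, dif_pos hv]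
      exact h2 _ _ (not_not.1 h6) h7) (by
      intro x F hF
      have hF' : ∀ u ∈ F, u < n := fun u hu => (hF u hu).1
      have hcard : F.card = (F.attach.map ⟨fun u => (⟨u.1, hF' u.1 u.2⟩ : Fin n), by
          intro a b hab
          exact Subtype.ext (congrArg Fin.val hab)⟩).card := by
        rw [Finset.card_map, Finset.card_attach]
      rw [hcard]
      refine h3 x _ ?_
      intro u hu
      rw [Finset.mem_map] at hu
      obtain ⟨w, -, rfl⟩ := hu
      have := (hF w.1 w.2).2.2
      simp only [dif_pos (hF' w.1 w.2)] at this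
      exact this) (by intro h; exact absurd h (by decide)))
    (a := [1]) (by
      intro c' hc'
      rw [List.mem_singleton] at hc'
      subst hc'
      refine ⟨(if h : 0 < n then lb ⟨0, h⟩ else lb ⟨0, by omega⟩), fun u hu => ?_⟩
      change (1 : ℕ).testBit u = true at hu
      rw [show (1 : ℕ) = 2 ^ 0 from rfl, testBit_pow, decide_eq_true_eq] at hu
      subst hu
      exact ⟨by omega, trivial, rfl⟩)
  rw [h4] at hrun
  exact absurd hrun (by decide)

/-- The engine applied to a tree with classes and labels, rooted version: nothing is required for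
the pairs containing the root, the children of the root are of pairwise near classes. -/
theorem free_rooted {k : ℕ} (hk : 3 ≤ k) {n s : ℕ} {p : List ℕ} (hlen : p.length = n)
    (hn : 1 ≤ n) (hpar : ∀ v, 1 ≤ v → v < n → p.getD v 0 < v)
    (hbfs : ∀ v, 1 ≤ v → v < n → p.getD v 0 = 0 → ∀ u, 1 ≤ u → u < v → p.getD u 0 = 0)
    (hrun : run (stepC s true) p.tail [] = true) (c : Fin n → ZMod (2 * k - 1))
    (lb : Fin n → A)
    (h1 : ∀ u v, (tree n p).Adj u v → Far (c u) (c v))
    (h2 : ∀ u v, u.1 ≠ 0 → v.1 ≠ 0 → Far (c u) (c v) → ¬ (tree n p).Adj u v → lb u = lb v)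
    (h3 : ∀ x, ∀ F : Finset (Fin n), (∀ u ∈ F, u.1 ≠ 0 ∧ lb u = x) → F.card ≤ s)
    (h4 : ∀ u v : Fin n, u.1 ≠ 0 → v.1 ≠ 0 → p.getD u.1 0 = 0 → p.getD v.1 0 = 0 →
      ¬ Far (c u) (c v)) : False := by
  classical
  have hN : Near (fun x y : ZMod (2 * k - 1) => ¬Far x y) := near_far (by omega)
  have h4 := engine_tree hN hlen hn hpar (c := c) 0 (fun u v h h' => h' (h1 u v h))
    (stepC_ok (s := s) (rt := true) (P := fun u => u ≠ 0)
      (lab := fun i => if h : i < n then lb ⟨i, h⟩ else lb ⟨0, by omega⟩) hN
      (fun v hv => by omega) (by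
      intro u v hu hv hPu hPv h
      obtain ⟨h6, h7⟩ := xp_iff hu hv hN h
      simp only [dif_pos hu, dif_pos hv]
      exact h2 _ _ hPu hPv (not_not.1 h6) h7) (by
      intro x F hF
      have hF' : ∀ u ∈ F, u < n := fun u hu => (hF u hu).1
      have hcard : F.card = (F.attach.map ⟨fun u => (⟨u.1, hF' u.1 u.2⟩ : Fin n), by
          intro a b hab
          exact Subtype.ext (congrArg Fin.val hab)⟩).card := by
        rw [Finset.card_map, Finset.card_attach]
      rw [hcard]
      refine h3 x _ ?_
      intro u hu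
      rw [Finset.mem_map] at hu
      obtain ⟨w, -, rfl⟩ := hu
      have := (hF w.1 w.2).2
      simp only [dif_pos (hF' w.1 w.2)] at this
      exact this) (by
      intro _ v hv hvn hpv u huv hu0
      have hun : u < n := by omega
      simp only [dif_pos hun, dif_pos hvn]
      exact h4 ⟨u, hun⟩ ⟨v, hvn⟩ hu0 (by simp only; omega) (hbfs v hv hvn hpv u (by omega) huv) hpv))
    (a := []) (by intro c' hc'; exact absurd hc' (by simp))
  rw [h4] at hrun
  exact absurd hrun (by decide)

end

end Pool.Agent.SA58
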