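import Pool.Agent.SA58.GadU
import Pool.Agent.SA58.UEng

set_option autoImplicit false

/-! Trees which are not in the piece gadget, by the engine. -/

namespace Pool.Agent.SA58

open SimpleGraph Pool.Agent.SA33 Pool.Agent.SA97 Pool.Agent.SA32 Eng

variable {k M : ℕ} {fl : Bool}

/-- The bound for the number of vertices of a piece in co-edges. -/
def sz (fl : Bool) : ℕ := cond fl 4 3

/-- The label of a vertex. -/
def ulab : U k M → Option (Pce k M × Bool)
  | .w r P => some (P, decide (r = .e))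
  | _ => none

/-- The role of a vertex. -/
def ro : U k M → Rl
  | .w r _ => r
  | _ => .b

theorem ulab_eq {u w : U k M} {r r' : Rl} {P P' : Pce k M} (hu : u = .w r P) (hw : w = .w r' P')
    (hr : r = .q → fl = true) (hr' : r' = .q → fl = true) (h : ¬ (gadU fl k M).Adj u w)
    (hfar : Far (ucls u) (ucls w)) : ulab u = ulab w := by
  subst hu; subst hw
  obtain ⟨rfl, h1, h2⟩ := coedge hr hr' h hfar
  simp [ulab, h1, h2]

/-- Few vertices with the same label. -/
theorem card_lab {n : ℕ} (f : Fin n → U k M) (hf : Function.Injective f) (x : Option (Pce k M × Bool))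
    (F : Finset (Fin n)) (hF : ∀ u ∈ F, (∃ r P, f u = .w r P ∧ (r = .q → fl = true)) ∧
      ulab (f u) = x) : F.card ≤ sz fl := by
  classical
  have hinj : Set.InjOn (fun u => ro (f u)) (F : Set (Fin n)) := by
    intro u hu v hv huv
    obtain ⟨⟨r, P, h1, -⟩, h2⟩ := hF u hu
    obtain ⟨⟨r', P', h3, -⟩, h4⟩ := hF v hv
    simp only [h1, h3, ro] at huv
    subst huv
    rw [h1] at h2
    rw [h3] at h4
    have h5 := h2.trans h4.symm
    simp only [ulab, Option.some.injEq, Prod.mk.injEq] at h5
    apply hf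
    rw [h1, h3, h5.1]
  rw [← Finset.card_image_of_injOn hinj]
  have h1 : (Finset.univ.filter (fun r : Rl => r ≠ .e ∧ (r = .q → fl = true))).card = sz fl := by
    cases fl <;> decide
  rcases x with _ | ⟨P, bl⟩
  · have : F = ∅ := by
      rw [Finset.eq_empty_iff_forall_notMem]
      intro u hu
      obtain ⟨⟨r, P, h1, -⟩, h2⟩ := hF u hu
      rw [h1] at h2
      exact absurd h2 (by simp [ulab])
    rw [this]; simp
  · cases bl
    · rw [← h1]
      apply Finset.card_le_card
      intro r hr
      obtain ⟨u, hu, rfl⟩ := Finset.mem_image.1 hr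
      obtain ⟨⟨r, P', h2, h3⟩, h4⟩ := hF u hu
      rw [h2] at h4
      simp only [ulab, Option.some.injEq, Prod.mk.injEq, decide_eq_false_iff_not] at h4
      simp only [h2, ro, Finset.mem_filter, Finset.mem_univ, true_and]
      exact ⟨h4.2, h3⟩
    · refine le_trans (Finset.card_le_one.2 ?_) (by cases fl <;> decide)
      intro r hr r' hr'
      obtain ⟨u, hu, rfl⟩ := Finset.mem_image.1 hr
      obtain ⟨v, hv, rfl⟩ := Finset.mem_image.1 hr'
      obtain ⟨⟨r, P', h2, -⟩, h4⟩ := hF u hu
      obtain ⟨⟨r', P'', h5, -⟩, h6⟩ := hF v hv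
      rw [h2] at h4
      rw [h5] at h6
      simp only [ulab, Option.some.injEq, Prod.mk.injEq, decide_eq_true_eq] at h4 h6
      simp only [h2, h5, ro, h4.2, h6.2]

/-- A vertex of a piece with a neighbour is admissible. -/
theorem valid_of_adj {u w : U k M} {r : Rl} {P : Pce k M} (hu : u = .w r P)
    (h : (gadU fl k M).Adj u w) : r = .q → fl = true := by
  subst hu
  rcases w with _ | j | ⟨r', P'⟩
  · intro h'
    have h1 : r = .b := h
    rw [h1] at h'
    exact absurd h' (by decide)
  · exact absurd h (fun h => nomatch h)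
  · exact h.1

/-- Neighbours of the leaf clique. -/
theorem leaf_nbr {j : Fin (k - 2)} {w : U k M} (h : (gadU fl k M).Adj (.l j) w) (hw : w ≠ .x) :
    ∃ j', w = .l j' := by
  rcases w with _ | j' | ⟨r', P'⟩
  · exact absurd rfl hw
  · exact ⟨j', rfl⟩
  · exact absurd h (fun h => nomatch h)

theorem not_unrooted (hk : 3 ≤ k) {p : List ℕ} {n : ℕ} (hlen : p.length = n) (hn : 2 ≤ n)
    (hpar : ∀ v, 1 ≤ v → v < n → p.getD v 0 < v)
    (hnon : ∃ a b : Fin n, a ≠ b ∧ ¬ (tree n p).Adj a b)
    (hrun : run (stepC (sz fl) false) p.tail [1] = true)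
    (f : tree n p ↪g gadU fl k M) (hx : ∀ v, f v ≠ .x) : False := by
  classical
  have hadjp : ∀ v (h1 : 1 ≤ v) (h2 : v < n),
      (tree n p).Adj ⟨p.getD v 0, (hpar v h1 h2).trans h2⟩ ⟨v, h2⟩ :=
    fun v h1 h2 => (padj_lt (hpar v h1 h2)).2 rfl
  have hnb : ∀ v : Fin n, ∃ u, (tree n p).Adj v u := by
    intro v
    by_cases hv : v.1 = 0
    · refine ⟨⟨1, by omega⟩, ?_⟩
      have h1 := hadjp 1 le_rfl (by omega)
      have h2 := hpar 1 le_rfl (by omega)
      have h3 : v = ⟨p.getD 1 0, by omega⟩ := Fin.ext (by simp only; omega)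
      rw [h3]
      exact h1
    · exact ⟨_, (hadjp v.1 (by omega) v.2).symm⟩
  by_cases hl : ∃ j, f ⟨0, by omega⟩ = .l j
  · have hall : ∀ v (hv : v < n), ∃ j, f ⟨v, hv⟩ = .l j := by
      intro v
      induction v using Nat.strong_induction_on with
      | _ v ih =>
        intro hv
        by_cases hv0 : v = 0
        · subst hv0; exact hl
        · obtain ⟨j, hj⟩ := ih (p.getD v 0) (hpar v (by omega) hv) (by
            have := hpar v (by omega) hv
            omega)
          have h1 := f.map_adj_iff.2 (hadjp v (by omega) hv)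
          rw [hj] at h1
          exact leaf_nbr h1 (hx _)
    obtain ⟨a, b, hab, hnad⟩ := hnon
    obtain ⟨j, hj⟩ := hall a.1 a.2
    obtain ⟨j', hj'⟩ := hall b.1 b.2
    apply hnad
    apply f.map_adj_iff.1
    change f a = _ at hj
    change f b = _ at hj'
    rw [hj, hj']
    change j ≠ j'
    rintro rfl
    exact hab (f.injective (hj.trans hj'.symm))
  · have hall : ∀ v (hv : v < n), ¬ ∃ j, f ⟨v, hv⟩ = .l j := by
      intro v
      induction v using Nat.strong_induction_on with
      | _ v ih =>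
        intro hv
        by_cases hv0 : v = 0
        · subst hv0; exact hl
        · rintro ⟨j, hj⟩
          have h1 := f.map_adj_iff.2 (hadjp v (by omega) hv)
          rw [hj] at h1
          exact ih (p.getD v 0) (hpar v (by omega) hv) (by
            have := hpar v (by omega) hv
            omega) (leaf_nbr h1.symm (hx _))
    have hw : ∀ v, ∃ r P, f v = .w r P ∧ (r = .q → fl = true) := by
      intro v
      obtain ⟨u, hu⟩ := hnb v
      rcases hfv : f v with _ | j | ⟨r, P⟩
      · exact absurd hfv (hx v)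
      · exact absurd ⟨j, hfv⟩ (hall v.1 v.2)
      · exact ⟨r, P, rfl, valid_of_adj hfv (f.map_adj_iff.2 hu)⟩
    refine free_unrooted hk hlen (by omega) hpar hrun (fun v => ucls (f v)) (fun v => ulab (f v))
      (fun u v h => uadj_far (f.map_adj_iff.2 h)) ?_ ?_
    · intro u v hfar hnad
      obtain ⟨r, P, h1, h2⟩ := hw u
      obtain ⟨r', P', h3, h4⟩ := hw v
      exact ulab_eq h1 h3 h2 h4 (fun h => hnad (f.map_adj_iff.1 h)) hfar
    · intro x F hF
      exact card_lab (fl := fl) f f.injective x F (fun u hu => ⟨hw u, hF u hu⟩)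

theorem not_rooted (hk : 3 ≤ k) {p : List ℕ} {n : ℕ} (hlen : p.length = n) (hn : 1 ≤ n)
    (hpar : ∀ v, 1 ≤ v → v < n → p.getD v 0 < v)
    (hbfs : ∀ v, 1 ≤ v → v < n → p.getD v 0 = 0 → ∀ u, 1 ≤ u → u < v → p.getD u 0 = 0)
    (hch : ∀ v, 1 ≤ v → v < n → p.getD v 0 = 0 → ∃ u, v < u ∧ u < n ∧ p.getD u 0 = v)
    (hrun : run (stepC (sz fl) true) p.tail [] = true)
    (f : tree n p ↪g gadU fl k M) (hx : f ⟨0, by omega⟩ = .x) : False := by
  classical
  have hadjp : ∀ v (h1 : 1 ≤ v) (h2 : v < n),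
      (tree n p).Adj ⟨p.getD v 0, (hpar v h1 h2).trans h2⟩ ⟨v, h2⟩ :=
    fun v h1 h2 => (padj_lt (hpar v h1 h2)).2 rfl
  have hfx : ∀ v : Fin n, v.1 ≠ 0 → f v ≠ .x := by
    intro v hv h
    exact hv (congrArg Fin.val (f.injective (h.trans hx.symm)))
  -- adjacent to the root
  have hroot : ∀ v : Fin n, v.1 ≠ 0 → (gadU fl k M).Adj .x (f v) → p.getD v.1 0 = 0 := by
    intro v hv h
    rw [← hx] at h
    have h1 : padj p 0 v.1 = true := f.map_adj_iff.1 h
    exact ((padj_lt (by omega)).1 h1).symm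
  have hw : ∀ v : Fin n, v.1 ≠ 0 → ∃ r P, f v = .w r P ∧ (r = .q → fl = true) := by
    intro v hv
    rcases hfv : f v with _ | j | ⟨r, P⟩
    · exact absurd hfv (hfx v hv)
    · exfalso
      have h1 := hroot v hv (by rw [hfv]; trivial)
      obtain ⟨u, hvu, hun, hpu⟩ := hch v.1 (by omega) v.2 h1
      have h2 : (tree n p).Adj v ⟨u, hun⟩ := by
        have h3 := hadjp u (by omega) hun
        have h4 : (⟨p.getD u 0, by omega⟩ : Fin n) = v := Fin.ext hpu
        rw [h4] at h3
        exact h3
      have h3 := f.map_adj_iff.2 h2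
      rw [hfv] at h3
      obtain ⟨j', hj'⟩ := leaf_nbr h3 (hfx _ (by simp only; omega))
      have h4 := hroot ⟨u, hun⟩ (by simp only; omega) (by rw [hj']; trivial)
      simp only at h4
      omega
    · exact ⟨r, P, rfl, valid_of_adj hfv (f.map_adj_iff.2 (hadjp v.1 (by omega) v.2).symm)⟩
  refine free_rooted hk hlen hn hpar hbfs hrun (fun v => ucls (f v)) (fun v => ulab (f v))
      (fun u v h => uadj_far (f.map_adj_iff.2 h)) ?_ ?_ ?_
  · intro u v hu hv hfar hnad
    obtain ⟨r, P, h1, h2⟩ := hw u hu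
    obtain ⟨r', P', h3, h4⟩ := hw v hv
    exact ulab_eq h1 h3 h2 h4 (fun h => hnad (f.map_adj_iff.1 h)) hfar
  · intro x F hF
    exact card_lab (fl := fl) f f.injective x F (fun u hu => ⟨hw u (hF u hu).1, (hF u hu).2⟩)
  · intro u v hu hv hpu hpv hfar
    have hb : ∀ v : Fin n, v.1 ≠ 0 → p.getD v.1 0 = 0 → ∃ P, f v = .w .b P := by
      intro v hv hpv
      obtain ⟨r, P, h1, -⟩ := hw v hv
      have h2 := hadjp v.1 (by omega) v.2
      have h3 : (⟨p.getD v.1 0, by have := v.2; omega⟩ : Fin n) = ⟨0, by omega⟩ := Fin.ext hpv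
      rw [h3] at h2
      have h4 := f.map_adj_iff.2 h2
      rw [hx] at h4
      change (gadU fl k M).Adj .x (f v) at h4
      rw [h1] at h4
      have h5 : r = .b := h4
      exact ⟨P, by rw [h1, h5]⟩
    obtain ⟨P, h1⟩ := hb u hu hpu
    obtain ⟨P', h2⟩ := hb v hv hpv
    by_cases hPP : P = P'
    · subst hPP
      have : u = v := f.injective (h1.trans h2.symm)
      subst this
      exact hfar.1 rfl
    · have h3 : (gadU fl k M).Adj (f u) (f v) := by
        rw [h1, h2]
        refine ⟨fun h => absurd h (by decide), fun h => absurd h (by decide), Or.inr ⟨hPP, ?_⟩⟩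
        simp only [h1, h2, ucls] at hfar
        exact hfar
      have h4 : padj p u.1 v.1 = true := f.map_adj_iff.1 h3
      rcases lt_trichotomy u.1 v.1 with h5 | h5 | h5
      · have := (padj_lt h5).1 h4
        omega
      · have : u = v := Fin.ext h5
        subst this
        exact hfar.1 rfl
      · have := (padj_gt h5).1 h4
        omega

end Pool.Agent.SA58
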