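import Pool.Agent.SA58.UFree
import Pool.Agent.SA58.Crit
import Pool.Agent.SA27.Bases2

set_option autoImplicit false

/-! Rooted goodness from the piece gadget: certificates and kernel runs. -/

namespace Pool.Agent.SA58

open SimpleGraph Pool.Agent.SA33 Pool.Agent.SA97 Pool.Agent.SA32 Pool.Agent.SA27 Eng

variable {k M : ℕ}

theorem embB_map {q p σ : List ℕ} (h : embB q p σ = true) :
    ∃ φ : ptree q ↪g ptree p, ∀ a, (φ a).1 = σ.getD a.1 0 := by
  have hlt : ∀ b : Fin q.length, σ.getD b.1 0 < p.length := by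
    intro b
    have h1 := allB_spec h b.2
    rw [Bool.and_eq_true] at h1
    exact Nat.le_of_ble_eq_true h1.1
  obtain ⟨φ, hφ⟩ := embed_of (ptree q) (ptree p) (fun b => ⟨σ.getD b.1 0, hlt b⟩)
    (fun a b hab => by
      have h1 := allB_spec h b.2
      rw [Bool.and_eq_true] at h1
      have h2 := allB_spec h1.2 hab
      rw [Bool.and_eq_true, beq_iff_eq] at h2
      change padj p (σ.getD a.1 0) (σ.getD b.1 0) = true ↔ padj q a.1 b.1 = true
      rw [h2.2])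
    (fun a b hab => by
      have h1 := allB_spec h b.2
      rw [Bool.and_eq_true] at h1
      have h2 := allB_spec h1.2 hab
      rw [Bool.and_eq_true] at h2
      intro heq
      have h3 : σ.getD a.1 0 = σ.getD b.1 0 := congrArg Fin.val heq
      rw [h3, Nat.beq_refl] at h2
      exact absurd h2.1 (by decide))
  exact ⟨φ, fun a => congrArg Fin.val (hφ a)⟩

/-- The shape conditions on a parent list. -/
def parB (p : List ℕ) : Bool := allB p.length fun v => Nat.beq v 0 || Nat.blt (p.getD v 0) v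

/-- The children of the root come first and are not leaves. -/
def bfsB (p : List ℕ) : Bool := allB p.length fun v => Nat.beq v 0 ||
  (!(Nat.beq (p.getD v 0) 0) || (allB v (fun u => Nat.beq (p.getD u 0) 0) &&
    anyB p.length (fun u => Nat.blt v u && Nat.beq (p.getD u 0) v)))

theorem parB_spec {p : List ℕ} (h : parB p = true) : ∀ v, 1 ≤ v → v < p.length →
    p.getD v 0 < v := by
  intro v h1 h2
  have h3 := allB_spec h h2
  rw [Bool.or_eq_true] at h3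
  rcases h3 with h3 | h3
  · have := Nat.eq_of_beq_eq_true h3; omega
  · exact Nat.le_of_ble_eq_true h3

theorem bfsB_spec {p : List ℕ} (h : bfsB p = true) : ∀ v, 1 ≤ v → v < p.length →
    p.getD v 0 = 0 → (∀ u, 1 ≤ u → u < v → p.getD u 0 = 0) ∧
      ∃ u, v < u ∧ u < p.length ∧ p.getD u 0 = v := by
  intro v h1 h2 h0
  have h3 := allB_spec h h2
  rw [h0, Nat.beq_refl, Bool.not_true, Bool.false_or, Bool.or_eq_true, Bool.and_eq_true] at h3
  rcases h3 with h3 | ⟨h3, h4⟩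
  · have := Nat.eq_of_beq_eq_true h3; omega
  · refine ⟨fun u _ hu => Nat.eq_of_beq_eq_true (allB_spec h3 hu), ?_⟩
    obtain ⟨u, hu, h5⟩ := anyB_spec h4
    rw [Bool.and_eq_true] at h5
    exact ⟨u, Nat.le_of_ble_eq_true h5.1, hu, Nat.eq_of_beq_eq_true h5.2⟩

/-- The Bool part of a certificate for the vertex `z`. -/
def certB (q : List ℕ) (z : ℕ) (p σ : List ℕ) : Bool :=
  Nat.blt 0 p.length && (embB p q σ && (Nat.beq (σ.getD 0 0) z && (parB p && bfsB p)))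

theorem free_of_certs {fl : Bool} (hk : 3 ≤ k) {q : List ℕ} (hn : 2 ≤ q.length)
    (hpar : parB q = true) (hnon : padj q 1 2 = false) (h3 : 3 ≤ q.length)
    (hrun : run (stepC (sz fl) false) q.tail [1] = true)
    (hz : ∀ z, z < q.length → ∃ p σ, certB q z p σ = true ∧
      run (stepC (sz fl) true) p.tail [] = true) : IsEmpty (ptree q ↪g gadU fl k M) := by
  refine ⟨fun f => ?_⟩
  by_cases hx : ∃ z, f z = .x
  · obtain ⟨z, hx⟩ := hx
    obtain ⟨p, σ, hc, hr⟩ := hz z.1 z.2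
    unfold certB at hc
    simp only [Bool.and_eq_true] at hc
    obtain ⟨h0, h1, h2, h4, h5⟩ := hc
    have h0' : 0 < p.length := Nat.le_of_ble_eq_true h0
    obtain ⟨φ, hφ⟩ := embB_map h1
    have hφ0 : φ ⟨0, h0'⟩ = z := Fin.ext (by rw [hφ]; exact Nat.eq_of_beq_eq_true h2)
    refine not_rooted hk rfl h0' (parB_spec h4) (fun v hv hvn hv0 => (bfsB_spec h5 v hv hvn hv0).1)
      (fun v hv hvn hv0 => (bfsB_spec h5 v hv hvn hv0).2) hr (φ.trans f) ?_
    change f (φ ⟨0, h0'⟩) = .x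
    rw [hφ0]; exact hx
  · push Not at hx
    refine not_unrooted hk rfl hn (parB_spec hpar) ⟨⟨1, by omega⟩, ⟨2, by omega⟩, ?_, ?_⟩ hrun f hx
    · intro h
      have h1 : (1 : ℕ) = 2 := congrArg Fin.val h
      omega
    · intro h
      change padj q 1 2 = true at h
      rw [hnon] at h
      exact absurd h (by decide)

/-- pattern A -/
def qA : List ℕ := [0, 0, 0, 0, 2, 2, 3, 3, 5, 7]

theorem unA : run (stepC (sz false) false) (List.tail qA) [1] = true := by decide +kernel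

theorem rA0 : run (stepC (sz false) true) (List.tail [0, 0, 0, 1, 1, 2, 2, 4, 6]) [] = true := by decide +kernel

theorem rA1 : run (stepC (sz false) true) (List.tail [0, 0, 1, 1, 2, 2, 3, 3, 5, 7]) [] = true := by decide +kernel

theorem rA2 : run (stepC (sz false) true) (List.tail [0, 0, 0, 1, 1, 2, 4, 4, 7]) [] = true := by decide +kernel

theorem rA3 : run (stepC (sz false) true) (List.tail [0, 0, 0, 1, 1, 2, 4, 4, 7]) [] = true := by decide +kernel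

theorem rA4 : run (stepC (sz false) true) (List.tail [0, 0, 1, 1, 2, 2, 3, 5, 5, 8]) [] = true := by decide +kernel

theorem rA5 : run (stepC (sz false) true) (List.tail [0, 0, 1, 1, 2, 2, 5, 5, 7]) [] = true := by decide +kernel

theorem rA6 : run (stepC (sz false) true) (List.tail [0, 0, 1, 1, 2, 2, 3, 5, 5, 8]) [] = true := by decide +kernel

theorem rA7 : run (stepC (sz false) true) (List.tail [0, 0, 1, 1, 2, 2, 5, 5, 7]) [] = true := by decide +kernel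

theorem rA8 : run (stepC (sz false) true) (List.tail [0, 0, 1, 2, 2, 3, 3, 6, 6, 8]) [] = true := by decide +kernel

theorem rA9 : run (stepC (sz false) true) (List.tail [0, 0, 1, 2, 2, 3, 3, 6, 6, 8]) [] = true := by decide +kernel

theorem freeA (hk : 3 ≤ k) : IsEmpty (ptree qA ↪g gadU false k M) := by
  refine free_of_certs hk (by decide) (by decide +kernel) (by decide +kernel) (by decide) unA ?_
  intro z hz
  have hz' : z < 10 := hz
  interval_cases z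
  · exact ⟨[0, 0, 0, 1, 1, 2, 2, 4, 6], [0, 2, 3, 4, 5, 6, 7, 8, 9], by decide +kernel, rA0⟩
  · exact ⟨[0, 0, 1, 1, 2, 2, 3, 3, 5, 7], [1, 0, 2, 3, 4, 5, 6, 7, 8, 9], by decide +kernel, rA1⟩
  · exact ⟨[0, 0, 0, 1, 1, 2, 4, 4, 7], [2, 0, 5, 1, 3, 8, 6, 7, 9], by decide +kernel, rA2⟩
  · exact ⟨[0, 0, 0, 1, 1, 2, 4, 4, 7], [3, 0, 7, 1, 2, 9, 4, 5, 8], by decide +kernel, rA3⟩
  · exact ⟨[0, 0, 1, 1, 2, 2, 3, 5, 5, 8], [4, 2, 0, 5, 1, 3, 8, 6, 7, 9], by decide +kernel, rA4⟩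
  · exact ⟨[0, 0, 1, 1, 2, 2, 5, 5, 7], [5, 2, 0, 4, 1, 3, 6, 7, 9], by decide +kernel, rA5⟩
  · exact ⟨[0, 0, 1, 1, 2, 2, 3, 5, 5, 8], [6, 3, 0, 7, 1, 2, 9, 4, 5, 8], by decide +kernel, rA6⟩
  · exact ⟨[0, 0, 1, 1, 2, 2, 5, 5, 7], [7, 3, 0, 6, 1, 2, 4, 5, 8], by decide +kernel, rA7⟩
  · exact ⟨[0, 0, 1, 2, 2, 3, 3, 6, 6, 8], [8, 5, 2, 0, 4, 1, 3, 6, 7, 9], by decide +kernel, rA8⟩
  · exact ⟨[0, 0, 1, 2, 2, 3, 3, 6, 6, 8], [9, 7, 3, 0, 6, 1, 2, 4, 5, 8], by decide +kernel, rA9⟩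

/-- pattern B -/
def qB : List ℕ := [0, 0, 0, 0, 1, 3, 3, 4, 6, 7]

theorem unB : run (stepC (sz false) false) (List.tail qB) [1] = true := by decide +kernel

theorem rB0 : run (stepC (sz false) true) (List.tail [0, 0, 0, 1, 2, 2, 3, 5, 6]) [] = true := by decide +kernel

theorem rB1 : run (stepC (sz false) true) (List.tail [0, 0, 0, 1, 1, 2, 4, 4, 5, 7]) [] = true := by decide +kernel

theorem rB2 : run (stepC (sz false) true) (List.tail [0, 0, 1, 1, 2, 3, 3, 4, 6, 7]) [] = true := by decide +kernel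

theorem rB3 : run (stepC (sz false) true) (List.tail [0, 0, 0, 1, 1, 2, 3, 6, 7]) [] = true := by decide +kernel

theorem rB4 : run (stepC (sz false) true) (List.tail [0, 0, 0, 1, 2, 3, 3, 6, 6, 8]) [] = true := by decide +kernel

theorem rB5 : run (stepC (sz false) true) (List.tail [0, 0, 1, 1, 2, 2, 3, 4, 7, 8]) [] = true := by decide +kernel

theorem rB6 : run (stepC (sz false) true) (List.tail [0, 0, 1, 1, 2, 2, 4, 6, 7]) [] = true := by decide +kernel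

theorem rB7 : run (stepC (sz false) true) (List.tail [0, 0, 1, 2, 3, 3, 5, 5, 7]) [] = true := by decide +kernel

theorem rB8 : run (stepC (sz false) true) (List.tail [0, 0, 1, 2, 2, 3, 3, 5, 7, 8]) [] = true := by decide +kernel

theorem rB9 : run (stepC (sz false) true) (List.tail [0, 0, 1, 2, 3, 4, 4, 6, 6, 8]) [] = true := by decide +kernel

theorem freeB (hk : 3 ≤ k) : IsEmpty (ptree qB ↪g gadU false k M) := by
  refine free_of_certs hk (by decide) (by decide +kernel) (by decide +kernel) (by decide) unB ?_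
  intro z hz
  have hz' : z < 10 := hz
  interval_cases z
  · exact ⟨[0, 0, 0, 1, 2, 2, 3, 5, 6], [0, 1, 3, 4, 5, 6, 7, 8, 9], by decide +kernel, rB0⟩
  · exact ⟨[0, 0, 0, 1, 1, 2, 4, 4, 5, 7], [1, 0, 4, 2, 3, 7, 5, 6, 9, 8], by decide +kernel, rB1⟩
  · exact ⟨[0, 0, 1, 1, 2, 3, 3, 4, 6, 7], [2, 0, 1, 3, 4, 5, 6, 7, 8, 9], by decide +kernel, rB2⟩
  · exact ⟨[0, 0, 0, 1, 1, 2, 3, 6, 7], [3, 0, 6, 1, 2, 8, 4, 7, 9], by decide +kernel, rB3⟩
  · exact ⟨[0, 0, 0, 1, 2, 3, 3, 6, 6, 8], [4, 1, 7, 0, 9, 2, 3, 5, 6, 8], by decide +kernel, rB4⟩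
  · exact ⟨[0, 0, 1, 1, 2, 2, 3, 4, 7, 8], [5, 3, 0, 6, 1, 2, 8, 4, 7, 9], by decide +kernel, rB5⟩
  · exact ⟨[0, 0, 1, 1, 2, 2, 4, 6, 7], [6, 3, 0, 5, 1, 2, 4, 7, 9], by decide +kernel, rB6⟩
  · exact ⟨[0, 0, 1, 2, 3, 3, 5, 5, 7], [7, 4, 1, 0, 2, 3, 5, 6, 8], by decide +kernel, rB7⟩
  · exact ⟨[0, 0, 1, 2, 2, 3, 3, 5, 7, 8], [8, 6, 3, 0, 5, 1, 2, 4, 7, 9], by decide +kernel, rB8⟩
  · exact ⟨[0, 0, 1, 2, 3, 4, 4, 6, 6, 8], [9, 7, 4, 1, 0, 2, 3, 5, 6, 8], by decide +kernel, rB9⟩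

/-- pattern C -/
def qC : List ℕ := [0, 0, 0, 0, 1, 3, 3, 4, 6, 6, 9, 10]

theorem unC : run (stepC (sz true) false) (List.tail qC) [1] = true := by decide +kernel

theorem rC0 : run (stepC (sz true) true) (List.tail [0, 0, 0, 1, 2, 2, 3, 5, 5, 8, 9]) [] = true := by decide +kernel

theorem rC1 : run (stepC (sz true) true) (List.tail [0, 0, 0, 1, 1, 2, 4, 4, 7, 7, 9, 10]) [] = true := by decide +kernel

theorem rC2 : run (stepC (sz true) true) (List.tail [0, 0, 1, 1, 2, 3, 3, 4, 6, 6, 9, 10]) [] = true := by decide +kernel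

theorem rC3 : run (stepC (sz true) true) (List.tail [0, 0, 0, 1, 1, 2, 2, 3, 6, 7, 8]) [] = true := by decide +kernel

theorem rC4 : run (stepC (sz true) true) (List.tail [0, 0, 1, 2, 2, 4, 4, 6, 6, 8, 9]) [] = true := by decide +kernel

theorem rC5 : run (stepC (sz true) true) (List.tail [0, 0, 1, 1, 2, 2, 3, 3, 4, 7, 8, 9]) [] = true := by decide +kernel

theorem rC6 : run (stepC (sz true) true) (List.tail [0, 0, 0, 1, 1, 2, 3, 3, 5, 6, 9]) [] = true := by decide +kernel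

theorem rC7 : run (stepC (sz true) true) (List.tail [0, 0, 1, 2, 3, 3, 5, 5, 7, 7, 9, 10]) [] = true := by decide +kernel

theorem rC8 : run (stepC (sz true) true) (List.tail [0, 0, 1, 1, 2, 2, 3, 4, 4, 6, 7, 10]) [] = true := by decide +kernel

theorem rC9 : run (stepC (sz true) true) (List.tail [0, 0, 0, 1, 1, 2, 3, 3, 6, 6, 8, 10]) [] = true := by decide +kernel

theorem rC10 : run (stepC (sz true) true) (List.tail [0, 0, 1, 2, 2, 3, 3, 5, 5, 7, 9]) [] = true := by decide +kernel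

theorem rC11 : run (stepC (sz true) true) (List.tail [0, 0, 1, 2, 3, 3, 4, 4, 6, 6, 8, 10]) [] = true := by decide +kernel

theorem freeC (hk : 3 ≤ k) : IsEmpty (ptree qC ↪g gadU true k M) := by
  refine free_of_certs hk (by decide) (by decide +kernel) (by decide +kernel) (by decide) unC ?_
  intro z hz
  have hz' : z < 12 := hz
  interval_cases z
  · exact ⟨[0, 0, 0, 1, 2, 2, 3, 5, 5, 8, 9], [0, 1, 3, 4, 5, 6, 7, 8, 9, 10, 11], by decide +kernel, rC0⟩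
  · exact ⟨[0, 0, 0, 1, 1, 2, 4, 4, 7, 7, 9, 10], [1, 0, 4, 2, 3, 7, 5, 6, 8, 9, 10, 11], by decide +kernel, rC1⟩
  · exact ⟨[0, 0, 1, 1, 2, 3, 3, 4, 6, 6, 9, 10], [2, 0, 1, 3, 4, 5, 6, 7, 8, 9, 10, 11], by decide +kernel, rC2⟩
  · exact ⟨[0, 0, 0, 1, 1, 2, 2, 3, 6, 7, 8], [3, 0, 6, 1, 2, 8, 9, 4, 10, 7, 11], by decide +kernel, rC3⟩
  · exact ⟨[0, 0, 1, 2, 2, 4, 4, 6, 6, 8, 9], [4, 1, 0, 2, 3, 5, 6, 8, 9, 10, 11], by decide +kernel, rC4⟩
  · exact ⟨[0, 0, 1, 1, 2, 2, 3, 3, 4, 7, 8, 9], [5, 3, 0, 6, 1, 2, 8, 9, 4, 10, 7, 11], by decide +kernel, rC5⟩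
  · exact ⟨[0, 0, 0, 1, 1, 2, 3, 3, 5, 6, 9], [6, 3, 9, 0, 5, 10, 1, 2, 11, 4, 7], by decide +kernel, rC6⟩
  · exact ⟨[0, 0, 1, 2, 3, 3, 5, 5, 7, 7, 9, 10], [7, 4, 1, 0, 2, 3, 5, 6, 8, 9, 10, 11], by decide +kernel, rC7⟩
  · exact ⟨[0, 0, 1, 1, 2, 2, 3, 4, 4, 6, 7, 10], [8, 6, 3, 9, 0, 5, 10, 1, 2, 11, 4, 7], by decide +kernel, rC8⟩
  · exact ⟨[0, 0, 0, 1, 1, 2, 3, 3, 6, 6, 8, 10], [9, 6, 10, 3, 8, 11, 0, 5, 1, 2, 4, 7], by decide +kernel, rC9⟩
  · exact ⟨[0, 0, 1, 2, 2, 3, 3, 5, 5, 7, 9], [10, 9, 6, 3, 8, 0, 5, 1, 2, 4, 7], by decide +kernel, rC10⟩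
  · exact ⟨[0, 0, 1, 2, 3, 3, 4, 4, 6, 6, 8, 10], [11, 10, 9, 6, 3, 8, 0, 5, 1, 2, 4, 7], by decide +kernel, rC11⟩


theorem rootGood_of_free {fl : Bool} (hk : 3 ≤ k) {τ : Type*} {T : SimpleGraph τ}
    (hT : IsEmpty (T ↪g gadU fl k M)) {σ : Type*} {S : SimpleGraph σ} {s : σ}
    (h : ∀ Q : Set (U k M), U.x ∈ Q → (gadU fl k M).CliqueFreeOn Q (k - 1) →
      ∃ φ : S ↪g gadU fl k M, φ s = .x ∧ ∀ y, y ≠ s → φ y ∉ Q) : RootGood T k S s := by
  have := finite_U (M := M) hk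
  exact rootGood_of (F := gadU fl k M) ⟨hT, gadU_cliqueFree hk⟩ .x h

theorem rootBase1 : RootBaseOK rb1 := by
  rintro h0 τ T k hk ⟨p, hp, ⟨e⟩⟩
  refine rootGood_of_free hk ⟨fun f => ?_⟩ (rooted6 hk)
  have hp' : p = [0, 0, 1, 2, 1, 4, 2, 6, 4, 8] ∨ p = [0, 0, 1, 2, 0, 0, 5, 3, 5, 8] := by
    simpa [rb1] using hp
  rcases hp' with rfl | rfl
  · obtain ⟨g⟩ := embB_emb (q := qA) (p := [0, 0, 1, 2, 1, 4, 2, 6, 4, 8]) (σ := [1, 0, 2, 4, 3, 6, 5, 8, 7, 9]) (by decide +kernel)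
    exact (freeA hk).false (g.trans (e.trans f))
  · obtain ⟨g⟩ := embB_emb (q := qB) (p := [0, 0, 1, 2, 0, 0, 5, 3, 5, 8]) (σ := [0, 1, 4, 5, 2, 6, 8, 3, 9, 7]) (by decide +kernel)
    exact (freeB hk).false (g.trans (e.trans f))

theorem rootBase2 : RootBaseOK rb2 := by
  rintro h0 τ T k hk ⟨p, hp, ⟨e⟩⟩
  refine rootGood_of_free hk ⟨fun f => ?_⟩ (rooted7 hk)
  have hp' : p = [0, 0, 1, 2, 0, 0, 5, 5, 7, 7, 9, 10] := by
    simpa [rb2] using hp
  subst hp'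
  obtain ⟨g⟩ := embB_emb (q := qC) (p := [0, 0, 1, 2, 0, 0, 5, 5, 7, 7, 9, 10]) (σ := [0, 1, 4, 5, 2, 6, 7, 3, 8, 9, 10, 11]) (by decide +kernel)
  exact (freeC hk).false (g.trans (e.trans f))

end Pool.Agent.SA58
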